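import Pool.Agent.V5helper13.LP.Sieve

set_option autoImplicit false

/-!
# Limit points of the qualities of the admissible tuples: dilution

`x` with height `H` and a small radical is joined with `A, -(A + c)`, where `A (A + c)` is squarefree
and coprime to `x`: so the radical is multiplied by about `A ^ 2`, which can be prescribed.
-/

namespace Pool.Agent.V5helper13.LP

open Finset Filter

/-- An admissible tuple: non-zero pairwise coprime integers with sum zero. -/
def Admissible {n : ℕ} (x : Fin n → ℤ) : Prop :=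
  (∀ i, x i ≠ 0) ∧ (∀ i j, i ≠ j → Int.gcd (x i) (x j) = 1) ∧ ∑ i, x i = 0

/-- The radical of `x_1 ⋯ x_n`: the product of the primes dividing it. -/
def rad {n : ℕ} (x : Fin n → ℤ) : ℕ := ∏ p ∈ (∏ i, x i).natAbs.primeFactors, p

/-- The height `max |x_j|`. -/
def height {n : ℕ} (x : Fin n → ℤ) : ℕ := Finset.univ.sup fun i => (x i).natAbs

/-- The quality `log max |x_j| / log rad (x_1 ⋯ x_n)`. -/
noncomputable def quality {n : ℕ} (x : Fin n → ℤ) : ℝ :=
  Real.log (height x) / Real.log (rad x)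

/-- `q` is a limit point of the qualities of the admissible `n`-tuples: each neighbourhood of `q`
contains the qualities of infinitely many admissible `n`-tuples. -/
def LimitPoint (n : ℕ) (q : ℝ) : Prop :=
  ∀ ε : ℝ, 0 < ε → {x : Fin n → ℤ | Admissible x ∧ |quality x - q| < ε}.Infinite

/-- the radical of the product of a list -/
def lrad (l : List ℤ) : ℕ := ∏ p ∈ l.prod.natAbs.primeFactors, p

/-- `log rad` is about `s log height` for lists of length `n` of arbitrarily large height -/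
def Good (n : ℕ) (s : ℝ) : Prop :=
  ∀ η : ℝ, 0 < η → ∀ B : ℕ, ∃ l : List ℤ, l.length = n ∧ (∀ a ∈ l, a ≠ 0) ∧
    l.Pairwise IsCoprime ∧ l.sum = 0 ∧ ∃ H : ℕ, B ≤ H ∧ (∃ a ∈ l, a.natAbs = H) ∧
    (∀ a ∈ l, a.natAbs ≤ H) ∧ |Real.log (lrad l) - s * Real.log H| ≤ η * Real.log H

theorem Good.limitPoint {n : ℕ} {s : ℝ} (h : Good n s) (hs : 0 < s) : LimitPoint n (1 / s) := by
  intro ε hε
  by_contra hfin
  rw [Set.not_infinite] at hfin
  obtain ⟨B, hB⟩ := (hfin.image (fun x => height x)).bddAbove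
  set η : ℝ := min (s / 2) (ε * s ^ 2 / 4) with hη
  have hη0 : 0 < η := lt_min (by linarith) (by positivity)
  obtain ⟨l, hlen, hne, hcop, hsum, H, hBH, ⟨a, ha, haH⟩, hle, hlog⟩ := h η hη0 (B + 3)
  subst hlen
  have hlog0 : 0 < Real.log H := Real.log_pos (by
    have : 3 ≤ H := by omega
    have h3 : (3 : ℝ) ≤ H := by exact_mod_cast this
    linarith)
  set x : Fin l.length → ℤ := fun i => l[i.1] with hx
  have hadm : Admissible x := by
    refine ⟨fun i => hne _ (List.getElem_mem _), fun i j hij => ?_, ?_⟩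
    · rw [← Int.isCoprime_iff_gcd_eq_one]
      have hp := List.pairwise_iff_getElem.1 hcop
      have hne2 : (i : ℕ) ≠ (j : ℕ) := fun h => hij (Fin.ext h)
      rcases lt_or_gt_of_ne hne2 with h1 | h1
      · exact hp i j i.2 j.2 h1
      · exact (hp j i j.2 i.2 h1).symm
    · rw [← hsum]
      exact Fin.sum_univ_getElem l
  have hrad : rad x = lrad l := by
    unfold rad lrad
    have : ∏ i, x i = l.prod := Fin.prod_univ_getElem l
    rw [this]
  have hheight : height x = H := by
    unfold height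
    apply le_antisymm
    · exact Finset.sup_le fun i _ => hle _ (List.getElem_mem _)
    · obtain ⟨i, hi, rfl⟩ := List.getElem_of_mem ha
      rw [← haH]
      exact Finset.le_sup (f := fun i => (x i).natAbs) (mem_univ (⟨i, hi⟩ : Fin l.length))
  have hmem : x ∈ {x : Fin l.length → ℤ | Admissible x ∧ |quality x - 1 / s| < ε} := by
    refine ⟨hadm, ?_⟩
    unfold quality
    rw [hheight, hrad]
    set r := Real.log (lrad l) with hr
    set L := Real.log H with hL
    have h1 := abs_le.1 hlog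
    have hηs : η ≤ s / 2 := min_le_left _ _
    have hηε : η ≤ ε * s ^ 2 / 4 := min_le_right _ _
    have hr1 : s / 2 * L ≤ r := by nlinarith [h1.1]
    have hr0 : 0 < r := lt_of_lt_of_le (by positivity) hr1
    have e : L / r - 1 / s = (s * L - r) / (s * r) := by
      field_simp
    rw [e, abs_div, abs_of_pos (mul_pos hs hr0), div_lt_iff₀ (mul_pos hs hr0), abs_sub_comm]
    calc |r - s * L| ≤ η * L := hlog
      _ ≤ ε * s ^ 2 / 4 * L := mul_le_mul_of_nonneg_right hηε hlog0.le
      _ < ε * s ^ 2 / 2 * L := by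
          have : 0 < ε * s ^ 2 * L := by positivity
          linarith
      _ = ε * (s * (s / 2 * L)) := by ring
      _ ≤ ε * (s * r) := by gcongr
  have h2 := hB ⟨x, hmem, rfl⟩
  simp only [hheight] at h2
  omega

theorem Good.closure {n : ℕ} {s : ℝ}
    (h : ∀ δ : ℝ, 0 < δ → ∃ s', |s' - s| ≤ δ ∧ Good n s') : Good n s := by
  intro η hη B
  obtain ⟨s', hs', hg⟩ := h (η / 2) (by linarith)
  obtain ⟨l, hlen, hne, hcop, hsum, H, hBH, ha, hle, hlog⟩ := hg (η / 2) (by linarith) (B + 1)
  refine ⟨l, hlen, hne, hcop, hsum, H, by omega, ha, hle, ?_⟩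
  have hL : 0 ≤ Real.log H := Real.log_natCast_nonneg H
  have e : Real.log (lrad l) - s * Real.log H =
      (Real.log (lrad l) - s' * Real.log H) + (s' - s) * Real.log H := by ring
  rw [e]
  refine (abs_add_le _ _).trans ?_
  rw [abs_mul, abs_of_nonneg hL]
  have := mul_le_mul_of_nonneg_right hs' hL
  linarith

theorem Good.add_two {n : ℕ} {s : ℝ} (h : Good n s) : Good (n + 2) s := by
  intro η hη B
  obtain ⟨l, hlen, hne, hcop, hsum, H, hBH, ⟨a, ha, haH⟩, hle, hlog⟩ := h η hη (B + 1)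
  refine ⟨1 :: (-1) :: l, by simp [hlen], ?_, ?_, ?_, H, by omega, ⟨a, by simp [ha], haH⟩, ?_, ?_⟩
  · intro b hb
    simp only [List.mem_cons] at hb
    rcases hb with rfl | rfl | hb
    · norm_num
    · norm_num
    · exact hne b hb
  · refine List.pairwise_cons.2 ⟨fun b _ => isCoprime_one_left, List.pairwise_cons.2
      ⟨fun b _ => isCoprime_one_left.neg_left, hcop⟩⟩
  · simp [hsum]
  · intro b hb
    simp only [List.mem_cons] at hb
    rcases hb with rfl | rfl | hb
    · have : (1 : ℤ).natAbs = 1 := rfl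
      omega
    · have : (-1 : ℤ).natAbs = 1 := rfl
      omega
    · exact hle b hb
  · have : lrad (1 :: (-1) :: l) = lrad l := by
      unfold lrad
      simp
    rw [this]
    exact hlog

theorem Good.add_even {n : ℕ} {s : ℝ} (h : Good n s) (k : ℕ) : Good (n + 2 * k) s := by
  induction k with
  | zero => simpa using h
  | succ k ih =>
    have e : n + 2 * (k + 1) = (n + 2 * k) + 2 := by ring
    rw [e]
    exact ih.add_two

theorem one_le_lrad (l : List ℤ) : 1 ≤ lrad l := by
  unfold lrad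
  exact Finset.one_le_prod' fun p hp => (Nat.prime_of_mem_primeFactors hp).one_le

theorem lrad_append (y : List ℤ) (A c : ℕ) (hA : Squarefree A) (hAc : Squarefree (A + c))
    (h : Nat.Coprime A (A + c)) (h1 : Nat.Coprime A y.prod.natAbs)
    (h2 : Nat.Coprime (A + c) y.prod.natAbs) :
    lrad (y ++ [(A : ℤ), -((A + c : ℕ) : ℤ)]) = lrad y * (A * (A + c)) := by
  unfold lrad
  have e : (y ++ [(A : ℤ), -((A + c : ℕ) : ℤ)]).prod.natAbs = y.prod.natAbs * (A * (A + c)) := by
    rw [List.prod_append, Int.natAbs_mul]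
    congr 1
    simp only [List.prod_cons, List.prod_nil, mul_one, mul_neg, Int.natAbs_neg, Int.natAbs_mul,
      Int.natAbs_natCast]
  rw [e]
  have hcop : Nat.Coprime y.prod.natAbs (A * (A + c)) := (h1.mul_left h2).symm
  rw [hcop.primeFactors_mul, prod_union hcop.disjoint_primeFactors]
  congr 1
  exact Nat.prod_primeFactors_of_squarefree ((Nat.squarefree_mul h).2 ⟨hA, hAc⟩)

theorem dilute (m c : ℕ) (hc : Even c) (hc0 : 0 < c) (s : ℝ) (hs0 : 0 < s) (hs2 : s < 2)
    (hyp : ∀ η : ℝ, 0 < η → ∀ B : ℕ, ∃ y : List ℤ, y.length = m ∧ (∀ a ∈ y, a ≠ 0) ∧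
      y.Pairwise IsCoprime ∧ y.sum = c ∧ ∃ H : ℕ, B ≤ H ∧ (∃ a ∈ y, a.natAbs = H) ∧
      (∀ a ∈ y, a.natAbs ≤ H) ∧ Real.log (lrad y) ≤ (s + η) * Real.log H) :
    Good (m + 2) s := by
  intro η hη B
  set δ : ℝ := min (η / 4) (s / 2) with hδ
  have hδ0 : 0 < δ := lt_min (by linarith) (by linarith)
  have hδη : δ ≤ η / 4 := min_le_left _ _
  have hδs : δ ≤ s / 2 := min_le_right _ _
  obtain ⟨D, hD⟩ := exists_nat_ge (((m : ℝ) + 1) / δ)
  obtain ⟨Y₀, hY₀⟩ := sieve c D
  set C : ℝ := 2 * Real.log 2 + Real.log (4 + c) with hC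
  have hcR : (0 : ℝ) < c := by exact_mod_cast hc0
  -- large heights
  have hev : ∀ᶠ x : ℝ in atTop, (Y₀ : ℝ) ≤ x ^ δ ∧ (4 + c : ℝ) ≤ x ^ (1 - s / 2) ∧
      C ≤ η / 4 * Real.log x := by
    refine ((tendsto_rpow_atTop hδ0).eventually_ge_atTop _).and
      (((tendsto_rpow_atTop (by linarith : 0 < 1 - s / 2)).eventually_ge_atTop _).and ?_)
    have h1 : Tendsto (fun x : ℝ => η / 4 * Real.log x) atTop atTop :=
      Real.tendsto_log_atTop.const_mul_atTop (by linarith)
    exact h1.eventually_ge_atTop _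
  obtain ⟨X₀, hX₀⟩ := eventually_atTop.1 hev
  obtain ⟨y, hlen, hne, hcop, hsum, H, hBH, ⟨a, ha, haH⟩, hle, hlog⟩ :=
    hyp (η / 4) (by linarith) (B + ⌈X₀⌉₊ + c + 3)
  have hH3 : 3 ≤ H := by omega
  have hH3R : (3 : ℝ) ≤ H := by exact_mod_cast hH3
  have hHpos : (0 : ℝ) < H := by linarith
  have hH1 : (1 : ℝ) ≤ H := by linarith
  have hXH : X₀ ≤ H := by
    refine (Nat.le_ceil X₀).trans ?_
    have : ⌈X₀⌉₊ ≤ H := by omega
    exact_mod_cast this
  obtain ⟨hYbig, hHbig, hCbig⟩ := hX₀ H hXH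
  set L : ℝ := Real.log H with hL
  have hL0 : 0 < L := Real.log_pos (by linarith)
  set r : ℝ := Real.log (lrad y) with hr
  have hr0 : 0 ≤ r := Real.log_natCast_nonneg _
  set θ : ℝ := max δ ((s - r / L) / 2) with hθ
  have hθδ : δ ≤ θ := le_max_left _ _
  have hθ0 : 0 < θ := lt_of_lt_of_le hδ0 hθδ
  have hθs : θ ≤ s / 2 := by
    refine max_le hδs ?_
    have : 0 ≤ r / L := by positivity
    linarith
  obtain ⟨Y, hY⟩ : ∃ Y : ℕ, Y = ⌈(H : ℝ) ^ θ⌉₊ := ⟨_, rfl⟩
  have hHθ1 : (1 : ℝ) ≤ (H : ℝ) ^ θ := Real.one_le_rpow hH1 hθ0.le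
  have hYge : (H : ℝ) ^ θ ≤ Y := by rw [hY]; exact Nat.le_ceil _
  have hYle : (Y : ℝ) ≤ 2 * (H : ℝ) ^ θ := by
    have : (Y : ℝ) < (H : ℝ) ^ θ + 1 := by rw [hY]; exact Nat.ceil_lt_add_one (by linarith)
    linarith
  have hHδθ : (H : ℝ) ^ δ ≤ (H : ℝ) ^ θ := Real.rpow_le_rpow_of_exponent_le hH1 hθδ
  have hYY₀ : Y₀ ≤ Y := by
    have : (Y₀ : ℝ) ≤ Y := hYbig.trans (hHδθ.trans hYge)
    exact_mod_cast this
  have hYpos : 0 < Y := by
    have : (0 : ℝ) < Y := by linarith
    exact_mod_cast this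
  have hy0 : y.prod.natAbs ≠ 0 := by
    rw [Int.natAbs_ne_zero]
    exact List.prod_ne_zero (fun h0 => hne 0 h0 rfl)
  have hprod : y.prod.natAbs ≤ H ^ m := by
    have key : ∀ l : List ℤ, (∀ a ∈ l, a.natAbs ≤ H) → l.prod.natAbs ≤ H ^ l.length := by
      intro l
      induction l with
      | nil => intro _; simp
      | cons b l ih =>
        intro hb
        rw [List.prod_cons, Int.natAbs_mul, List.length_cons, pow_succ, mul_comm]
        exact Nat.mul_le_mul (ih fun a ha => hb a (List.mem_cons_of_mem _ ha))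
          (hb b List.mem_cons_self)
    rw [← hlen]
    exact key y hle
  set P : ℕ := c * y.prod.natAbs with hP
  have hPpos : 0 < P := Nat.mul_pos hc0 (Nat.pos_of_ne_zero hy0)
  have hPY : P ≤ Y ^ D := by
    have h1 : P ≤ H ^ (m + 1) := by
      rw [pow_succ, mul_comm (H ^ m) H]
      exact Nat.mul_le_mul (by omega) hprod
    have h2 : ((H ^ (m + 1) : ℕ) : ℝ) ≤ ((Y ^ D : ℕ) : ℝ) := by
      push_cast
      have h3 : (H : ℝ) ^ (m + 1) ≤ ((H : ℝ) ^ δ) ^ D := by
        rw [← Real.rpow_natCast ((H : ℝ) ^ δ) D, ← Real.rpow_mul hHpos.le,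
          ← Real.rpow_natCast (H : ℝ) (m + 1)]
        refine Real.rpow_le_rpow_of_exponent_le hH1 ?_
        rw [div_le_iff₀ hδ0] at hD
        push_cast
        linarith
      refine h3.trans ?_
      exact pow_le_pow_left₀ (by positivity) (hHδθ.trans hYge) D
    exact h1.trans (by exact_mod_cast h2)
  obtain ⟨A, hA1, hA2, hAs, hAcs, hAP, hAcP, hAAc⟩ :=
    hY₀ Y hYY₀ P c hPpos hPY (Dvd.intro _ rfl) hc hc0 (Nat.le_mul_of_pos_right c hYpos)
  have hAy : Nat.Coprime A y.prod.natAbs :=
    Nat.Coprime.coprime_dvd_right (Dvd.intro_left c rfl) hAP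
  have hAcy : Nat.Coprime (A + c) y.prod.natAbs :=
    Nat.Coprime.coprime_dvd_right (Dvd.intro_left c rfl) hAcP
  have hApos : 0 < A := by omega
  have hA1R : (H : ℝ) ^ θ ≤ A := hYge.trans (by exact_mod_cast hA1)
  have hA2R : (A : ℝ) ≤ 4 * (H : ℝ) ^ θ := by
    have : (A : ℝ) ≤ 2 * Y := by exact_mod_cast hA2
    linarith
  have hAcR : ((A : ℝ) + c) ≤ (4 + c) * (H : ℝ) ^ θ := by
    have : (c : ℝ) ≤ c * (H : ℝ) ^ θ := le_mul_of_one_le_right hcR.le hHθ1
    nlinarith
  have hAcH : A + c ≤ H := by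
    have h1 : ((A : ℝ) + c) ≤ H := by
      calc ((A : ℝ) + c) ≤ (4 + c) * (H : ℝ) ^ θ := hAcR
        _ ≤ (H : ℝ) ^ (1 - s / 2) * (H : ℝ) ^ (s / 2) := by
            refine mul_le_mul hHbig (Real.rpow_le_rpow_of_exponent_le hH1 hθs) (by positivity)
              (by positivity)
        _ = H := by
            rw [← Real.rpow_add hHpos]
            have : 1 - s / 2 + s / 2 = 1 := by ring
            rw [this, Real.rpow_one]
    exact_mod_cast h1
  have hcopA : ∀ (b : ℕ), Nat.Coprime b y.prod.natAbs → ∀ a ∈ y, IsCoprime a (b : ℤ) := by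
    intro b hb a ha
    rw [Int.isCoprime_iff_gcd_eq_one]
    show Nat.gcd a.natAbs ((b : ℤ).natAbs) = 1
    rw [Int.natAbs_natCast]
    have h1 : a.natAbs ∣ y.prod.natAbs := Int.natAbs_dvd_natAbs.2 (List.dvd_prod ha)
    exact (Nat.Coprime.coprime_dvd_right h1 hb).symm
  refine ⟨y ++ [(A : ℤ), -((A + c : ℕ) : ℤ)], by simp [hlen], ?_, ?_, ?_, H, by omega,
    ⟨a, by simp [ha], haH⟩, ?_, ?_⟩
  · intro b hb
    simp only [List.mem_append, List.mem_cons, List.not_mem_nil, or_false] at hb
    rcases hb with hb | rfl | rfl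
    · exact hne b hb
    · exact_mod_cast hApos.ne'
    · rw [neg_ne_zero]
      have : A + c ≠ 0 := by omega
      exact_mod_cast this
  · rw [List.pairwise_append]
    refine ⟨hcop, ?_, ?_⟩
    · refine List.pairwise_cons.2 ⟨?_, List.pairwise_singleton _ _⟩
      intro b hb
      rw [List.mem_singleton] at hb
      rw [hb]
      refine IsCoprime.neg_right ?_
      exact Nat.isCoprime_iff_coprime.2 hAAc
    · intro a ha b hb
      simp only [List.mem_cons, List.not_mem_nil, or_false] at hb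
      rcases hb with rfl | rfl
      · exact hcopA A hAy a ha
      · exact (hcopA (A + c) hAcy a ha).neg_right
  · rw [List.sum_append, hsum]
    simp only [List.sum_cons, List.sum_nil, add_zero]
    push_cast
    ring
  · intro b hb
    simp only [List.mem_append, List.mem_cons, List.not_mem_nil, or_false] at hb
    rcases hb with hb | rfl | rfl
    · exact hle b hb
    · rw [Int.natAbs_natCast]; omega
    · rw [Int.natAbs_neg, Int.natAbs_natCast]; exact hAcH
  · rw [lrad_append y A c hAs hAcs hAAc hAy hAcy]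
    have hradpos : (0 : ℝ) < lrad y := by exact_mod_cast one_le_lrad y
    have hAposR : (0 : ℝ) < A := by exact_mod_cast hApos
    have hAcposR : (0 : ℝ) < (A : ℝ) + c := by linarith
    have e1 : Real.log ((lrad y * (A * (A + c)) : ℕ) : ℝ) =
        r + (Real.log A + Real.log ((A : ℝ) + c)) := by
      push_cast
      rw [Real.log_mul hradpos.ne' (by positivity), Real.log_mul hAposR.ne' hAcposR.ne']
    have eθ : Real.log ((H : ℝ) ^ θ) = θ * L := Real.log_rpow hHpos θ
    have hHθpos : (0 : ℝ) < (H : ℝ) ^ θ := by positivity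
    have f1 : θ * L ≤ Real.log A := by
      rw [← eθ]; exact Real.log_le_log hHθpos hA1R
    have f2 : Real.log A ≤ 2 * Real.log 2 + θ * L := by
      have h1 := Real.log_le_log hAposR hA2R
      rw [Real.log_mul (by norm_num) hHθpos.ne', eθ] at h1
      have h2 : Real.log 4 = 2 * Real.log 2 := by
        rw [show (4 : ℝ) = 2 ^ 2 by norm_num, Real.log_pow]
        norm_num
      linarith
    have f3 : θ * L ≤ Real.log ((A : ℝ) + c) :=
      f1.trans (Real.log_le_log hAposR (by linarith))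
    have f4 : Real.log ((A : ℝ) + c) ≤ Real.log (4 + c) + θ * L := by
      have h1 := Real.log_le_log hAcposR hAcR
      rw [Real.log_mul (by positivity) hHθpos.ne', eθ] at h1
      exact h1
    rw [e1, abs_le]
    have g1 : s * L ≤ r + 2 * (θ * L) := by
      have h1 : (s - r / L) / 2 ≤ θ := le_max_right _ _
      have h2 : (s - r / L) / 2 * L ≤ θ * L := mul_le_mul_of_nonneg_right h1 hL0.le
      have h3 : (s - r / L) / 2 * L = (s * L - r) / 2 := by
        field_simp
      linarith
    have g2 : r + 2 * (θ * L) ≤ s * L + 3 * η / 4 * L := by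
      rcases le_total δ ((s - r / L) / 2) with h | h
      · have h1 : θ = (s - r / L) / 2 := max_eq_right h
        have h3 : θ * L = (s * L - r) / 2 := by
          rw [h1]; field_simp
        have h4 : 0 ≤ 3 * η / 4 * L := by positivity
        linarith
      · have h1 : θ = δ := max_eq_left h
        rw [h1]
        have h5 : δ * L ≤ η / 4 * L := mul_le_mul_of_nonneg_right hδη hL0.le
        nlinarith [hlog]
    constructor
    · have : 0 ≤ η * L := by positivity
      linarith
    · linarith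

end Pool.Agent.V5helper13.LP
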