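import Pool.Agent.V5helper13.LP.Dil
import Pool.Agent.TH285.SN.Odd
import Pool.Agent.TH96.NC.Even3

set_option autoImplicit false

/-!
# Limit points of the qualities: the two families of tuples, and arbitrary tuples
-/

namespace Pool.Agent.V5helper13.LP

open Finset Filter

/-- the input of `dilute` -/
def Core (m c : ℕ) (s : ℝ) : Prop :=
  ∀ η : ℝ, 0 < η → ∀ B : ℕ, ∃ y : List ℤ, y.length = m ∧ (∀ a ∈ y, a ≠ 0) ∧
    y.Pairwise IsCoprime ∧ y.sum = c ∧ ∃ H : ℕ, B ≤ H ∧ (∃ a ∈ y, a.natAbs = H) ∧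
    (∀ a ∈ y, a.natAbs ≤ H) ∧ Real.log (lrad y) ≤ (s + η) * Real.log H

theorem lrad_le_of (l : List ℤ) (W : ℕ) (hW : 0 < W)
    (h : ∀ p : ℕ, p.Prime → ∀ a ∈ l, (p : ℤ) ∣ a → p ∣ W) : lrad l ≤ W := by
  refine le_trans ?_ (Nat.le_of_dvd hW (Nat.prod_primeFactors_dvd W))
  unfold lrad
  refine Finset.prod_le_prod_of_subset_of_one_le' ?_ ?_
  · intro p hp
    have hp1 := Nat.prime_of_mem_primeFactors hp
    have hp2 := Nat.dvd_of_mem_primeFactors hp
    rw [Nat.mem_primeFactors]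
    refine ⟨hp1, ?_, hW.ne'⟩
    have hp3 : (p : ℤ) ∣ l.prod := Int.natCast_dvd.mpr hp2
    obtain ⟨a, ha, hpa⟩ := (Nat.prime_iff_prime_int.mp hp1).dvd_prod_iff.1 hp3
    exact h p hp1 a ha hpa
  · intro p hp _
    exact (Nat.prime_of_mem_primeFactors hp).one_le

theorem core_of (m c d e C : ℕ) (hd : 0 < d) (hC : 1 ≤ C) (s : ℝ) (hs : (e : ℝ) / d ≤ s)
    (h : ∀ N : ℕ, ∃ X : ℕ, N ≤ X ∧ ∃ y : List ℤ, y.length = m ∧ (∀ a ∈ y, a ≠ 0) ∧
      y.Pairwise IsCoprime ∧ y.sum = c ∧ (∃ a ∈ y, a.natAbs = X ^ d) ∧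
      (∀ a ∈ y, a.natAbs ≤ X ^ d) ∧ lrad y ≤ C * X ^ e) : Core m c s := by
  intro η hη B
  have hdR : (0 : ℝ) < d := by exact_mod_cast hd
  have h1 : Tendsto (fun x : ℝ => η * d * Real.log x) atTop atTop :=
    Real.tendsto_log_atTop.const_mul_atTop (by positivity)
  obtain ⟨X₀, hX₀⟩ := eventually_atTop.1 (h1.eventually_ge_atTop (Real.log C))
  obtain ⟨X, hNX, y, hlen, hne, hcop, hsum, ha, hle, hrad⟩ := h (B + ⌈X₀⌉₊ + 1)
  have hX1 : 1 ≤ X := by omega
  have hXpos : (0 : ℝ) < X := by exact_mod_cast hX1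
  refine ⟨y, hlen, hne, hcop, hsum, X ^ d, ?_, ha, hle, ?_⟩
  · calc B ≤ X := by omega
      _ ≤ X ^ d := Nat.le_self_pow hd.ne' X
  · have hXX : X₀ ≤ X := by
      refine (Nat.le_ceil X₀).trans ?_
      have : ⌈X₀⌉₊ ≤ X := by omega
      exact_mod_cast this
    have h2 := hX₀ X hXX
    have hradpos : (0 : ℝ) < lrad y := by exact_mod_cast one_le_lrad y
    have hCpos : (0 : ℝ) < C := by exact_mod_cast hC
    have h3 : (lrad y : ℝ) ≤ C * (X : ℝ) ^ e := by exact_mod_cast hrad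
    have h4 := Real.log_le_log hradpos h3
    rw [Real.log_mul hCpos.ne' (by positivity), Real.log_pow] at h4
    push_cast
    rw [Real.log_pow]
    have hLX : 0 ≤ Real.log X := Real.log_natCast_nonneg X
    have h5 : (e : ℝ) * Real.log X ≤ s * (d * Real.log X) := by
      rw [div_le_iff₀ hdR] at hs
      calc (e : ℝ) * Real.log X ≤ (s * d) * Real.log X := mul_le_mul_of_nonneg_right hs hLX
        _ = s * (d * Real.log X) := by ring
    calc Real.log (lrad y) ≤ Real.log C + e * Real.log X := h4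
      _ ≤ η * d * Real.log X + s * (d * Real.log X) := add_le_add h2 h5
      _ = (s + η) * (d * Real.log X) := by ring

theorem core_odd (s : ℝ) (hs : 3 / 5 ≤ s) : Core 3 8 s := by
  refine core_of 3 8 5 3 310 (by norm_num) (by norm_num) s (by push_cast; linarith) fun N => ?_
  obtain ⟨e, he⟩ : ∃ e, e = N + 10 := ⟨_, rfl⟩
  obtain ⟨X, hX⟩ : ∃ X : ℕ, X = 31 ^ e := ⟨_, rfl⟩
  have hXe : N + 10 < X := by
    rw [hX, ← he]
    exact Nat.lt_pow_self (by norm_num)
  have hX10 : 10 < X := by omega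
  obtain ⟨z, hz⟩ : ∃ z : ℤ, (X : ℤ) = 1 + 30 * z := by
    have h1 : 31 ^ e ≡ 1 ^ e [MOD 30] := Nat.ModEq.pow e (by decide)
    rw [one_pow] at h1
    obtain ⟨z, hz⟩ := Nat.modEq_iff_dvd.mp h1.symm
    refine ⟨z, ?_⟩
    rw [hX]
    push_cast at hz ⊢
    linarith
  have hcop := TH285.SN.ent_cop hz
  obtain ⟨Y, hY⟩ : ∃ Y : ℕ, X = Y + 2 := ⟨X - 2, by omega⟩
  have hXY : (X : ℤ) = Y + 2 := by rw [hY]; push_cast; ring
  have c01 : IsCoprime ((X : ℤ) ^ 5) (((X : ℤ) - 2) ^ 5) := by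
    have := hcop 0 1 (by norm_num)
    simp only [TH285.SN.ent] at this
    simpa using this.neg_right
  have c02 : IsCoprime ((X : ℤ) ^ 5) (10 * (((X : ℤ) - 1) ^ 2 + 1) ^ 2) := by
    have := hcop 0 2 (by norm_num)
    simp only [TH285.SN.ent] at this
    simpa using this.neg_right
  have c12 : IsCoprime (((X : ℤ) - 2) ^ 5) (10 * (((X : ℤ) - 1) ^ 2 + 1) ^ 2) := by
    have := hcop 1 2 (by norm_num)
    simp only [TH285.SN.ent] at this
    simpa using this.neg_right.neg_left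
  refine ⟨X, by omega, [-(X : ℤ) ^ 5, ((X : ℤ) - 2) ^ 5, 10 * (((X : ℤ) - 1) ^ 2 + 1) ^ 2],
    rfl, ?_, ?_, ?_, ⟨-(X : ℤ) ^ 5, by simp, ?_⟩, ?_, ?_⟩
  · intro a ha
    simp only [List.mem_cons, List.not_mem_nil, or_false] at ha
    rcases ha with rfl | rfl | rfl
    · rw [neg_ne_zero]
      have : (X : ℤ) ≠ 0 := by omega
      exact pow_ne_zero _ this
    · have : (X : ℤ) - 2 ≠ 0 := by omega
      exact pow_ne_zero _ this
    · positivity
  · refine List.pairwise_cons.2 ⟨?_, List.pairwise_cons.2 ⟨?_, List.pairwise_singleton _ _⟩⟩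
    · intro b hb
      simp only [List.mem_cons, List.not_mem_nil, or_false] at hb
      rcases hb with rfl | rfl
      · exact c01.neg_left
      · exact c02.neg_left
    · intro b hb
      simp only [List.mem_cons, List.not_mem_nil, or_false] at hb
      rw [hb]
      exact c12
  · simp only [List.sum_cons, List.sum_nil]
    push_cast
    ring
  · rw [Int.natAbs_neg, Int.natAbs_pow, Int.natAbs_natCast]
  · intro a ha
    simp only [List.mem_cons, List.not_mem_nil, or_false] at ha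
    rcases ha with rfl | rfl | rfl
    · rw [Int.natAbs_neg, Int.natAbs_pow, Int.natAbs_natCast]
    · have e1 : (X : ℤ) - 2 = (Y : ℤ) := by omega
      rw [e1, Int.natAbs_pow, Int.natAbs_natCast]
      exact Nat.pow_le_pow_left (by omega) 5
    · have e1 : (10 * (((X : ℤ) - 1) ^ 2 + 1) ^ 2) = ((10 * ((Y + 1) ^ 2 + 1) ^ 2 : ℕ) : ℤ) := by
        push_cast; rw [hXY]; ring
      rw [e1, Int.natAbs_natCast]
      have h1 : (Y + 1) ^ 2 + 1 ≤ X ^ 2 := by rw [hY]; nlinarith
      calc 10 * ((Y + 1) ^ 2 + 1) ^ 2 ≤ X * (X ^ 2) ^ 2 :=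
            Nat.mul_le_mul (by omega) (Nat.pow_le_pow_left h1 2)
        _ = X ^ 5 := by ring
  · have hW : lrad [-(X : ℤ) ^ 5, ((X : ℤ) - 2) ^ 5, 10 * (((X : ℤ) - 1) ^ 2 + 1) ^ 2] ≤
        31 * Y * (10 * ((Y + 1) ^ 2 + 1)) := by
      refine lrad_le_of _ _ (by
        have : 0 < Y := by omega
        positivity) fun p hp a ha hpa => ?_
      have hpI : Prime (p : ℤ) := Nat.prime_iff_prime_int.mp hp
      simp only [List.mem_cons, List.not_mem_nil, or_false] at ha
      rcases ha with rfl | rfl | rfl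
      · rw [dvd_neg] at hpa
        have h1 := hpI.dvd_of_dvd_pow hpa
        have h2 : p ∣ X := by exact_mod_cast h1
        rw [hX] at h2
        have h3 := hp.dvd_of_dvd_pow h2
        exact (h3.mul_right _).mul_right _
      · have h1 := hpI.dvd_of_dvd_pow hpa
        have e1 : (X : ℤ) - 2 = (Y : ℤ) := by omega
        rw [e1] at h1
        have h2 : p ∣ Y := by exact_mod_cast h1
        exact (h2.mul_left _).mul_right _
      · rcases hpI.dvd_or_dvd hpa with h1 | h1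
        · have h2 : p ∣ 10 := by exact_mod_cast h1
          exact (h2.mul_right _).mul_left _
        · have h1 := hpI.dvd_of_dvd_pow h1
          have e1 : ((X : ℤ) - 1) ^ 2 + 1 = (((Y + 1) ^ 2 + 1 : ℕ) : ℤ) := by
            push_cast; rw [hXY]; ring
          rw [e1] at h1
          have h2 : p ∣ (Y + 1) ^ 2 + 1 := by exact_mod_cast h1
          exact (h2.mul_left _).mul_left _
    refine hW.trans ?_
    have h1 : (Y + 1) ^ 2 + 1 ≤ X ^ 2 := by rw [hY]; nlinarith
    calc 31 * Y * (10 * ((Y + 1) ^ 2 + 1)) ≤ 31 * X * (10 * X ^ 2) := by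
          gcongr; omega
      _ = 310 * X ^ 3 := by ring

theorem core_even (s : ℝ) (hs : 5 / 7 ≤ s) : Core 4 1369826131968 s := by
  refine core_of 4 1369826131968 7 5 (11 * 7495 * 7 * 6337 * 1369826131969) (by norm_num)
    (by norm_num) s (by push_cast; linarith) fun N => ?_
  obtain ⟨t, ht⟩ : ∃ t, t = N + 7495 ^ 3 * 7 := ⟨_, rfl⟩
  obtain ⟨X, hX⟩ : ∃ X : ℕ, X = 11 ^ TH96.NC.ex t := ⟨_, rfl⟩
  have hXt : t < X := by rw [hX]; exact TH96.NC.ex_large t
  have h48 : 48 < X := by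
    have : (48 : ℕ) < 7495 ^ 3 * 7 := by norm_num
    omega
  have hbig : 7495 ^ 3 * 7 ≤ X := by omega
  obtain ⟨z, hz⟩ := TH96.NC.ex_mod t
  rw [← hX] at hz
  have hcop := TH96.NC.ent_cop hz
  have hne := TH96.NC.ent_ne (X := (X : ℤ)) (by exact_mod_cast h48)
  refine ⟨X, by omega, [TH96.NC.ent X 0, TH96.NC.ent X 1, TH96.NC.ent X 2, TH96.NC.ent X 3],
    rfl, ?_, ?_, ?_, ⟨TH96.NC.ent X 0, by simp, ?_⟩, ?_, ?_⟩
  · intro a ha
    simp only [List.mem_cons, List.not_mem_nil, or_false] at ha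
    rcases ha with rfl | rfl | rfl | rfl
    · exact hne 0
    · exact hne 1
    · exact hne 2
    · exact hne 3
  · refine List.pairwise_cons.2 ⟨?_, List.pairwise_cons.2 ⟨?_, List.pairwise_cons.2
      ⟨?_, List.pairwise_singleton _ _⟩⟩⟩
    · intro b hb
      simp only [List.mem_cons, List.not_mem_nil, or_false] at hb
      rcases hb with rfl | rfl | rfl
      · exact hcop 0 1 (by norm_num)
      · exact hcop 0 2 (by norm_num)
      · exact hcop 0 3 (by norm_num)
    · intro b hb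
      simp only [List.mem_cons, List.not_mem_nil, or_false] at hb
      rcases hb with rfl | rfl
      · exact hcop 1 2 (by norm_num)
      · exact hcop 1 3 (by norm_num)
    · intro b hb
      simp only [List.mem_cons, List.not_mem_nil, or_false] at hb
      rw [hb]
      exact hcop 2 3 (by norm_num)
  · simp only [List.sum_cons, List.sum_nil, TH96.NC.ent]
    push_cast
    ring
  · simp only [TH96.NC.ent]
    rw [Int.natAbs_pow, Int.natAbs_natCast]
  · have e24 : (X : ℤ) - 24 = ((X - 24 : ℕ) : ℤ) := by omega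
    have e48 : (X : ℤ) - 48 = ((X - 48 : ℕ) : ℤ) := by omega
    have hX1 : 1 ≤ X ^ 2 := Nat.one_le_pow _ _ (by omega)
    have h3 : (X - 24) ^ 2 ≤ X ^ 2 := Nat.pow_le_pow_left (by omega) 2
    have h5 : 7 * (X - 24) ^ 2 + 7488 ≤ 7495 * X ^ 2 := by omega
    have h6 : (X - 24) ^ 2 + 6336 ≤ 7495 * X ^ 2 := by omega
    have h7 : (7495 * X ^ 2) ^ 3 * 7 ≤ X ^ 7 := by
      calc (7495 * X ^ 2) ^ 3 * 7 = (7495 ^ 3 * 7) * X ^ 6 := by ring
        _ ≤ X * X ^ 6 := Nat.mul_le_mul_right _ hbig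
        _ = X ^ 7 := by ring
    intro a ha
    simp only [List.mem_cons, List.not_mem_nil, or_false] at ha
    rcases ha with rfl | rfl | rfl | rfl
    · simp only [TH96.NC.ent]
      rw [Int.natAbs_pow, Int.natAbs_natCast]
    · simp only [TH96.NC.ent]
      rw [e48, Int.natAbs_neg, Int.natAbs_pow, Int.natAbs_natCast]
      exact Nat.pow_le_pow_left (by omega) 7
    · simp only [TH96.NC.ent]
      have e1 : (7 * ((X : ℤ) - 24) ^ 2 + 7488) = ((7 * (X - 24) ^ 2 + 7488 : ℕ) : ℤ) := by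
        rw [e24]; push_cast; rfl
      rw [e1, Int.natAbs_neg, Int.natAbs_pow, Int.natAbs_natCast]
      calc (7 * (X - 24) ^ 2 + 7488) ^ 3 ≤ (7495 * X ^ 2) ^ 3 := Nat.pow_le_pow_left h5 3
        _ ≤ (7495 * X ^ 2) ^ 3 * 7 := Nat.le_mul_of_pos_right _ (by norm_num)
        _ ≤ X ^ 7 := h7
    · simp only [TH96.NC.ent]
      have e1 : (7 * (((X : ℤ) - 24) ^ 2 + 6336) ^ 3) =
          ((7 * ((X - 24) ^ 2 + 6336) ^ 3 : ℕ) : ℤ) := by
        rw [e24]; push_cast; rfl
      rw [e1, Int.natAbs_natCast]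
      calc 7 * ((X - 24) ^ 2 + 6336) ^ 3 ≤ 7 * (7495 * X ^ 2) ^ 3 :=
            Nat.mul_le_mul_left _ (Nat.pow_le_pow_left h6 3)
        _ = (7495 * X ^ 2) ^ 3 * 7 := by ring
        _ ≤ X ^ 7 := h7
  · refine le_trans ?_ (TH96.NC.wit_le h48)
    refine lrad_le_of _ _ (TH96.NC.wit_pos h48) fun p hp a ha hpa => ?_
    simp only [List.mem_cons, List.not_mem_nil, or_false] at ha
    rcases ha with rfl | rfl | rfl | rfl
    · exact TH96.NC.prime_dvd_wit h48 hX hp 0 hpa
    · exact TH96.NC.prime_dvd_wit h48 hX hp 1 hpa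
    · exact TH96.NC.prime_dvd_wit h48 hX hp 2 hpa
    · exact TH96.NC.prime_dvd_wit h48 hX hp 3 hpa

/-- from admissible tuples of large quality -/
theorem core_tuple (n : ℕ) (s : ℝ) (hs : 0 < s)
    (h : ∀ M : ℝ, M < 1 / s → ∀ B : ℕ, ∃ x : Fin n → ℤ, Admissible x ∧ B ≤ height x ∧
      (rad x : ℝ) ^ M < height x) : Core (n + 2) 2 s := by
  intro η hη B
  obtain ⟨x, ⟨hne, hcop, hsum⟩, hB, hq⟩ := h (1 / (s + η))
    (one_div_lt_one_div_of_lt hs (by linarith)) (B + 2)
  have hprod : (1 :: 1 :: List.ofFn x).prod = ∏ i, x i := by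
    simp [List.prod_ofFn]
  have hrad : lrad (1 :: 1 :: List.ofFn x) = rad x := by
    unfold lrad rad
    rw [hprod]
  have hn : (Finset.univ : Finset (Fin n)).Nonempty := by
    by_contra hcon
    rw [Finset.not_nonempty_iff_eq_empty] at hcon
    have : height x = 0 := by
      unfold height
      rw [hcon]
      simp
    omega
  refine ⟨1 :: 1 :: List.ofFn x, by simp, ?_, ?_, ?_, height x, by omega, ?_, ?_, ?_⟩
  · intro a ha
    simp only [List.mem_cons, List.mem_ofFn] at ha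
    rcases ha with rfl | rfl | ⟨i, rfl⟩
    · norm_num
    · norm_num
    · exact hne i
  · refine List.pairwise_cons.2 ⟨fun b _ => isCoprime_one_left, List.pairwise_cons.2
      ⟨fun b _ => isCoprime_one_left, ?_⟩⟩
    rw [List.pairwise_ofFn]
    intro i j hij
    rw [Int.isCoprime_iff_gcd_eq_one]
    exact hcop i j hij.ne
  · simp [List.sum_ofFn, hsum]
  · obtain ⟨i, -, hi⟩ := Finset.exists_mem_eq_sup _ hn (fun i => (x i).natAbs)
    exact ⟨x i, by simp, hi.symm⟩
  · intro a ha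
    simp only [List.mem_cons, List.mem_ofFn] at ha
    rcases ha with rfl | rfl | ⟨i, rfl⟩
    · have : (1 : ℤ).natAbs = 1 := rfl
      omega
    · have : (1 : ℤ).natAbs = 1 := rfl
      omega
    · exact Finset.le_sup (f := fun i => (x i).natAbs) (mem_univ i)
  · rw [hrad]
    have hrpos : (0 : ℝ) < rad x := by
      rw [← hrad]
      exact_mod_cast one_le_lrad _
    have h1 := Real.log_lt_log (Real.rpow_pos_of_pos hrpos _) hq
    rw [Real.log_rpow hrpos, one_div, inv_mul_lt_iff₀ (by linarith)] at h1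
    exact h1.le

theorem good_of_core {m c : ℕ} (hc : Even c) (hc0 : 0 < c) {s : ℝ} (hs0 : 0 < s) (hs2 : s ≤ 2)
    (h : ∀ s' : ℝ, s' < 2 → 0 < s' → (s' = s ∨ 1 ≤ s') → Core m c s') : Good (m + 2) s := by
  rcases hs2.lt_or_eq with h2 | h2
  · exact dilute m c hc hc0 s hs0 h2 (h s h2 hs0 (Or.inl rfl))
  · refine Good.closure fun δ hδ => ⟨2 - min δ 1, ?_, ?_⟩
    · rw [h2]
      have h3 : 0 < min δ 1 := lt_min hδ one_pos
      have e : 2 - min δ 1 - 2 = -(min δ 1) := by ring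
      rw [e, abs_neg, abs_of_pos h3]
      exact min_le_left _ _
    · have h3 : 0 < min δ 1 := lt_min hδ one_pos
      have h4 : min δ 1 ≤ 1 := min_le_right _ _
      exact dilute m c hc hc0 _ (by linarith) (by linarith)
        (h _ (by linarith) (by linarith) (Or.inr (by linarith)))

theorem good_odd {s : ℝ} (hs : 3 / 5 ≤ s) (hs2 : s ≤ 2) : Good 5 s :=
  good_of_core (m := 3) (c := 8) (by decide) (by norm_num) (by linarith) hs2
    fun s' _ _ h => core_odd s' (by rcases h with h | h <;> linarith)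

theorem good_even {s : ℝ} (hs : 5 / 7 ≤ s) (hs2 : s ≤ 2) : Good 6 s :=
  good_of_core (m := 4) (c := 1369826131968) (by decide) (by norm_num) (by linarith) hs2
    fun s' _ _ h => core_even s' (by rcases h with h | h <;> linarith)

end Pool.Agent.V5helper13.LP
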