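import Pool.Agent.V5helper13.LP.Dil

set_option autoImplicit false

/-!
# Limit points of the qualities: the interval from `1 / n` to `1 / 2`
-/

namespace Pool.Agent.V5helper13.LP

open Finset Filter

theorem prod_le_pow (l : List ℕ) (b : ℕ) (h : ∀ a ∈ l, a ≤ b) : l.prod ≤ b ^ l.length := by
  induction l with
  | nil => simp
  | cons a l ih =>
    rw [List.prod_cons, List.length_cons, pow_succ, mul_comm]
    exact Nat.mul_le_mul (ih fun a ha => h a (List.mem_cons_of_mem _ ha)) (h a List.mem_cons_self)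

theorem sum_le_mul (l : List ℕ) (b : ℕ) (h : ∀ a ∈ l, a ≤ b) : l.sum ≤ l.length * b := by
  induction l with
  | nil => simp
  | cons a l ih =>
    rw [List.sum_cons, List.length_cons]
    have h1 := ih fun a ha => h a (List.mem_cons_of_mem _ ha)
    have h2 := h a List.mem_cons_self
    have : (l.length + 1) * b = l.length * b + b := by ring
    omega

theorem build (k : ℕ) : ∀ σ : ℝ, 0 ≤ σ → σ ≤ k → ∀ η : ℝ, 0 < η → ∃ H₀ : ℕ, ∀ H : ℕ, H₀ ≤ H →
    ∃ l : List ℕ, l.length = k ∧ (∀ a ∈ l, a ≤ 2 * H) ∧ Odd l.prod ∧ Squarefree l.prod ∧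
      l.Pairwise Nat.Coprime ∧ |Real.log l.prod - σ * Real.log H| ≤ η * Real.log H := by
  induction k with
  | zero =>
    intro σ hσ0 hσ η hη
    have : σ = 0 := le_antisymm (by simpa using hσ) hσ0
    subst this
    refine ⟨1, fun H _ => ⟨[], rfl, by simp, by simp, by simp, List.Pairwise.nil, ?_⟩⟩
    have := Real.log_natCast_nonneg H
    simp only [List.prod_nil, Nat.cast_one, Real.log_one, zero_mul, sub_zero, abs_zero]
    positivity
  | succ k ih =>
    intro σ hσ0 hσ η hη
    push_cast at hσ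
    set σ' : ℝ := min σ k with hσ'
    have hσ'0 : 0 ≤ σ' := le_min hσ0 (Nat.cast_nonneg k)
    have hσ'k : σ' ≤ k := min_le_right _ _
    set ρ : ℝ := σ - σ' with hρ
    have hρ0 : 0 ≤ ρ := by have := min_le_left σ (k : ℝ); linarith
    have hρ1 : ρ ≤ 1 := by
      rcases le_total σ k with h | h
      · have : σ' = σ := min_eq_left h
        rw [hρ, this]; linarith
      · have : σ' = k := min_eq_right h
        rw [hρ, this]; linarith
    obtain ⟨H₁, hH₁⟩ := ih σ' hσ'0 hσ'k (η / 2) (by linarith)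
    rcases le_or_gt ρ (η / 2) with hcase | hcase
    · refine ⟨H₁ + 1, fun H hH => ?_⟩
      obtain ⟨l, hlen, hle, hodd, hsq, hcop, hlog⟩ := hH₁ H (by omega)
      refine ⟨1 :: l, by simp [hlen], ?_, by simpa using hodd, by simpa using hsq,
        List.pairwise_cons.2 ⟨fun b _ => Nat.coprime_one_left b, hcop⟩, ?_⟩
      · intro a ha
        rw [List.mem_cons] at ha
        rcases ha with rfl | ha
        · omega
        · exact hle a ha
      · have hL := Real.log_natCast_nonneg H
        rw [List.prod_cons, one_mul]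
        have e : Real.log l.prod - σ * Real.log H =
            (Real.log l.prod - σ' * Real.log H) - ρ * Real.log H := by rw [hρ]; ring
        rw [e]
        refine (abs_sub _ _).trans ?_
        rw [abs_of_nonneg (mul_nonneg hρ0 hL)]
        have := mul_le_mul_of_nonneg_right hcase hL
        linarith
    · have hρpos : 0 < ρ := by linarith
      obtain ⟨D, hD⟩ := exists_nat_ge (((2 * k + 1 : ℕ) : ℝ) * 2 / ρ)
      obtain ⟨Y₀, hY₀⟩ := sieve 1 D
      have hev : ∀ᶠ x : ℝ in atTop, (4 * Y₀ + 8 : ℝ) ≤ x ^ ρ ∧ (2 : ℝ) ≤ x ^ (ρ / 2) ∧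
          Real.log 2 ≤ η / 2 * Real.log x := by
        refine ((tendsto_rpow_atTop hρpos).eventually_ge_atTop _).and
          (((tendsto_rpow_atTop (by linarith : 0 < ρ / 2)).eventually_ge_atTop _).and ?_)
        have h1 : Tendsto (fun x : ℝ => η / 2 * Real.log x) atTop atTop :=
          Real.tendsto_log_atTop.const_mul_atTop (by linarith)
        exact h1.eventually_ge_atTop _
      obtain ⟨X₀, hX₀⟩ := eventually_atTop.1 hev
      refine ⟨H₁ + ⌈X₀⌉₊ + 2, fun H hH => ?_⟩
      obtain ⟨l, hlen, hle, hodd, hsq, hcop, hlog⟩ := hH₁ H (by omega)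
      have hH2 : 2 ≤ H := by omega
      have hH2R : (2 : ℝ) ≤ H := by exact_mod_cast hH2
      have hHpos : (0 : ℝ) < H := by linarith
      have hH1 : (1 : ℝ) ≤ H := by linarith
      have hXH : X₀ ≤ H := by
        refine (Nat.le_ceil X₀).trans ?_
        have : ⌈X₀⌉₊ ≤ H := by omega
        exact_mod_cast this
      obtain ⟨hb1, hb2, hb3⟩ := hX₀ H hXH
      obtain ⟨Y, hY⟩ : ∃ Y : ℕ, Y = ⌊(H : ℝ) ^ ρ⌋₊ := ⟨_, rfl⟩
      have hYle : (Y : ℝ) ≤ (H : ℝ) ^ ρ := by rw [hY]; exact Nat.floor_le (by positivity)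
      have hYge : (H : ℝ) ^ ρ / 2 ≤ Y := by
        have h1 : (H : ℝ) ^ ρ < Y + 1 := by rw [hY]; exact Nat.lt_floor_add_one _
        have h2 : (0 : ℝ) ≤ Y₀ := Nat.cast_nonneg _
        linarith
      have hYH : Y ≤ H := by
        have h1 : (H : ℝ) ^ ρ ≤ (H : ℝ) ^ (1 : ℝ) := Real.rpow_le_rpow_of_exponent_le hH1 hρ1
        rw [Real.rpow_one] at h1
        exact_mod_cast hYle.trans h1
      have hYY₀ : Y₀ ≤ Y := by
        have : (Y₀ : ℝ) ≤ Y := by
          have h2 : (0 : ℝ) ≤ Y₀ := Nat.cast_nonneg _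
          linarith
        exact_mod_cast this
      have hY2 : 2 ≤ Y := by
        have h2 : (0 : ℝ) ≤ Y₀ := Nat.cast_nonneg _
        have : (2 : ℝ) ≤ Y := by linarith
        exact_mod_cast this
      have hYhalf : (H : ℝ) ^ (ρ / 2) ≤ Y := by
        have e : (H : ℝ) ^ ρ = (H : ℝ) ^ (ρ / 2) * (H : ℝ) ^ (ρ / 2) := by
          rw [← Real.rpow_add hHpos]; congr 1; ring
        have hpos : (0 : ℝ) < (H : ℝ) ^ (ρ / 2) := by positivity
        rw [e] at hYge
        nlinarith
      have hprodpos : 0 < l.prod := hodd.pos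
      have hPY : 2 * l.prod ≤ Y ^ D := by
        have h1 : 2 * l.prod ≤ H ^ (2 * k + 1) := by
          calc 2 * l.prod ≤ 2 * (2 * H) ^ k := by
                rw [← hlen]; exact Nat.mul_le_mul_left _ (prod_le_pow l _ hle)
            _ ≤ H * (H * H) ^ k := by gcongr
            _ = H ^ (2 * k + 1) := by ring
        have h2 : ((H ^ (2 * k + 1) : ℕ) : ℝ) ≤ ((Y ^ D : ℕ) : ℝ) := by
          push_cast
          have h3 : (H : ℝ) ^ (2 * k + 1) ≤ ((H : ℝ) ^ (ρ / 2)) ^ D := by
            rw [← Real.rpow_natCast ((H : ℝ) ^ (ρ / 2)) D, ← Real.rpow_mul hHpos.le,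
              ← Real.rpow_natCast (H : ℝ) (2 * k + 1)]
            refine Real.rpow_le_rpow_of_exponent_le hH1 ?_
            rw [div_le_iff₀ hρpos] at hD
            linarith
          exact h3.trans (pow_le_pow_left₀ (by positivity) hYhalf D)
        exact h1.trans (by exact_mod_cast h2)
      obtain ⟨A, hA1, hA2, hAs, -, hAP, -, -⟩ :=
        hY₀ Y hYY₀ (2 * l.prod) 2 (by omega) hPY (Dvd.intro _ rfl) (by decide) (by norm_num)
          (by omega)
      have hAodd : Odd A := by
        have : Nat.Coprime A 2 := Nat.Coprime.coprime_dvd_right (Dvd.intro _ rfl) hAP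
        exact Nat.coprime_two_right.1 this
      have hAl : Nat.Coprime A l.prod := Nat.Coprime.coprime_dvd_right (Dvd.intro_left 2 rfl) hAP
      refine ⟨A :: l, by simp [hlen], ?_, ?_, ?_, ?_, ?_⟩
      · intro a ha
        rw [List.mem_cons] at ha
        rcases ha with rfl | ha
        · omega
        · exact hle a ha
      · rw [List.prod_cons]; exact hAodd.mul hodd
      · rw [List.prod_cons]; exact (Nat.squarefree_mul hAl).2 ⟨hAs, hsq⟩
      · refine List.pairwise_cons.2 ⟨fun b hb => ?_, hcop⟩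
        exact Nat.Coprime.coprime_dvd_right (List.dvd_prod hb) hAl
      · have hApos : (0 : ℝ) < A := by
          have : 0 < A := by omega
          exact_mod_cast this
        have hppos : (0 : ℝ) < l.prod := by exact_mod_cast hprodpos
        rw [List.prod_cons, Nat.cast_mul, Real.log_mul hApos.ne' hppos.ne']
        have hHρ : (0 : ℝ) < (H : ℝ) ^ ρ := by positivity
        have eρ : Real.log ((H : ℝ) ^ ρ) = ρ * Real.log H := Real.log_rpow hHpos ρ
        have f1 : ρ * Real.log H - Real.log 2 ≤ Real.log A := by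
          rw [← eρ, ← Real.log_div hHρ.ne' (by norm_num)]
          exact Real.log_le_log (by positivity) (hYge.trans (by exact_mod_cast hA1))
        have f2 : Real.log A ≤ ρ * Real.log H + Real.log 2 := by
          rw [← eρ, ← Real.log_mul hHρ.ne' (by norm_num)]
          refine Real.log_le_log hApos ?_
          have : (A : ℝ) ≤ 2 * Y := by exact_mod_cast hA2
          linarith
        have f3 := abs_le.1 hlog
        have e : σ * Real.log H = σ' * Real.log H + ρ * Real.log H := by rw [hρ]; ring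
        rw [e, abs_le]
        constructor <;> linarith [f3.1, f3.2]

theorem sum_parity (l : List ℕ) (h : ∀ a ∈ l, Odd a) : l.sum % 2 = l.length % 2 := by
  induction l with
  | nil => rfl
  | cons a l ih =>
    rw [List.sum_cons, List.length_cons]
    have h1 := ih fun a ha => h a (List.mem_cons_of_mem _ ha)
    have h2 := Nat.odd_iff.1 (h a List.mem_cons_self)
    omega

theorem natAbs_prod_map (l : List ℕ) : (l.map (fun a : ℕ => (a : ℤ))).prod = ((l.prod : ℕ) : ℤ) := by
  rw [Nat.cast_list_prod]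

theorem sum_map (l : List ℕ) : (l.map (fun a : ℕ => (a : ℤ))).sum = ((l.sum : ℕ) : ℤ) := by
  rw [Nat.cast_list_sum]

theorem good_gen (k : ℕ) (hk : 1 ≤ k) (s : ℝ) (hs : 2 ≤ s) (hs2 : s ≤ k + 2) : Good (k + 2) s := by
  intro η hη B
  obtain ⟨H₁, hH₁⟩ := build k (s - 2) (by linarith) (by linarith) (η / 4) (by linarith)
  obtain ⟨Y₀, hY₀⟩ := sieve (2 * k + 4) (k + 2)
  set C : ℝ := (s + 4) * Real.log (2 * k + 6) with hC
  obtain ⟨X₀, hX₀⟩ := eventually_atTop.1
    ((Real.tendsto_log_atTop.const_mul_atTop (by linarith : 0 < η / 4)).eventually_ge_atTop C)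
  obtain ⟨H, hH⟩ : ∃ H, H = H₁ + Y₀ + ⌈X₀⌉₊ + B + (2 * k + 4) * 2 ^ (k + 1) + 3 := ⟨_, rfl⟩
  obtain ⟨l, hlen, hle, hodd, hsq, hcop, hlog⟩ := hH₁ H (by omega)
  have hH3 : 3 ≤ H := by omega
  have hH3R : (3 : ℝ) ≤ H := by exact_mod_cast hH3
  have hHpos : (0 : ℝ) < H := by linarith
  have hXH : X₀ ≤ H := by
    refine (Nat.le_ceil X₀).trans ?_
    have : ⌈X₀⌉₊ ≤ H := by omega
    exact_mod_cast this
  have hCb := hX₀ H hXH
  -- the head
  obtain ⟨a, l₂, rfl⟩ : ∃ a l₂, l = a :: l₂ := by
    cases l with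
    | nil => simp at hlen; omega
    | cons a l₂ => exact ⟨a, l₂, rfl⟩
  rw [List.length_cons] at hlen
  have hodds : ∀ b ∈ a :: l₂, Odd b := fun b hb => Odd.of_dvd_nat hodd (List.dvd_prod hb)
  obtain ⟨κ, hκ⟩ : ∃ κ : ℕ, κ = if Even k then 1 else 2 := ⟨_, rfl⟩
  have hκ12 : κ = 1 ∨ κ = 2 := by
    rw [hκ]; split_ifs <;> simp
  set N : ℕ := κ * a + l₂.sum with hN
  have ha_odd := Nat.odd_iff.1 (hodds a List.mem_cons_self)
  have hNeven : Even N := by
    rw [Nat.even_iff]
    have h1 := sum_parity l₂ fun b hb => hodds b (List.mem_cons_of_mem _ hb)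
    rcases Nat.even_or_odd k with hk2 | hk2
    · have : κ = 1 := by rw [hκ, if_pos hk2]
      rw [Nat.even_iff] at hk2
      rw [hN, this]
      omega
    · have : κ = 2 := by rw [hκ, if_neg (Nat.not_even_iff_odd.2 hk2)]
      rw [Nat.odd_iff] at hk2
      rw [hN, this]
      omega
  have ha_pos : 0 < a := by omega
  have hκpos : 0 < κ := by rcases hκ12 with h | h <;> omega
  have hκ2 : κ ≤ 2 := by rcases hκ12 with h | h <;> omega
  have hNpos : 0 < N := by
    have : 0 < κ * a := Nat.mul_pos hκpos ha_pos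
    omega
  have hNle : N ≤ (2 * k + 4) * H := by
    have h1 : l₂.sum ≤ l₂.length * (2 * H) :=
      sum_le_mul l₂ _ fun b hb => hle b (List.mem_cons_of_mem _ hb)
    have h2 : κ * a ≤ 2 * (2 * H) := Nat.mul_le_mul hκ2 (hle a List.mem_cons_self)
    have h3 : l₂.length * (2 * H) ≤ k * (2 * H) := Nat.mul_le_mul_right _ (by omega)
    calc N ≤ 2 * (2 * H) + k * (2 * H) := by omega
      _ = (2 * k + 4) * H := by ring
  set R : ℕ := κ * (a :: l₂).prod with hR
  have hppos : 0 < (a :: l₂).prod := hodd.pos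
  have hRpos : 0 < R := Nat.mul_pos hκpos hppos
  have hPle : N * R ≤ H ^ (k + 2) := by
    have h1 : R ≤ 2 * (2 * H) ^ k := by
      refine Nat.mul_le_mul hκ2 ?_
      have := prod_le_pow (a :: l₂) (2 * H) hle
      rw [List.length_cons, hlen] at this
      exact this
    calc N * R ≤ ((2 * k + 4) * H) * (2 * (2 * H) ^ k) := Nat.mul_le_mul hNle h1
      _ = ((2 * k + 4) * 2 ^ (k + 1)) * H ^ (k + 1) := by rw [mul_pow]; ring
      _ ≤ H * H ^ (k + 1) := Nat.mul_le_mul_right _ (by omega)
      _ = H ^ (k + 2) := by ring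
  obtain ⟨A, hA1, hA2, hAs, hAcs, hAP, hAcP, hAAc⟩ :=
    hY₀ H (by omega) (N * R) N (Nat.mul_pos hNpos hRpos) hPle (Dvd.intro _ rfl) hNeven hNpos hNle
  set y : List ℤ := ((κ * a : ℕ) : ℤ) :: l₂.map (fun b : ℕ => (b : ℤ)) with hy
  have hyprod : y.prod = ((R : ℕ) : ℤ) := by
    rw [hy, List.prod_cons, natAbs_prod_map, hR, List.prod_cons]
    push_cast
    ring
  have hyprodabs : y.prod.natAbs = R := by rw [hyprod, Int.natAbs_natCast]
  have hysum : y.sum = N := by
    rw [hy, List.sum_cons, sum_map, hN]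
    push_cast
    ring
  have hAR : Nat.Coprime A R := Nat.Coprime.coprime_dvd_right (Dvd.intro_left N rfl) hAP
  have hAcR : Nat.Coprime (A + N) R := Nat.Coprime.coprime_dvd_right (Dvd.intro_left N rfl) hAcP
  have hκp : Nat.Coprime κ (a :: l₂).prod := by
    rcases hκ12 with h | h
    · rw [h]; exact Nat.coprime_one_left _
    · rw [h]; exact Nat.coprime_two_left.2 hodd
  have hRsq : Squarefree R := by
    rw [hR, Nat.squarefree_mul hκp]
    refine ⟨?_, hsq⟩
    rcases hκ12 with h | h
    · rw [h]; exact squarefree_one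
    · rw [h]; exact Nat.prime_two.squarefree
  have hlrady : lrad y = R := by
    unfold lrad
    rw [hyprodabs]
    exact Nat.prod_primeFactors_of_squarefree hRsq
  have hymem : ∀ b ∈ y, b ∣ y.prod := fun b hb => List.dvd_prod hb
  have hcopA : ∀ (b : ℕ), Nat.Coprime b R → ∀ a ∈ y, IsCoprime a (b : ℤ) := by
    intro b hb a ha
    rw [Int.isCoprime_iff_gcd_eq_one]
    show Nat.gcd a.natAbs ((b : ℤ).natAbs) = 1
    rw [Int.natAbs_natCast]
    have h1 : a.natAbs ∣ R := by
      rw [← hyprodabs]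
      exact Int.natAbs_dvd_natAbs.2 (List.dvd_prod ha)
    exact (Nat.Coprime.coprime_dvd_right h1 hb).symm
  have hAN : H ≤ A + N := by omega
  have hymem' : ∀ b ∈ y, b.natAbs ≤ N := by
    intro b hb
    rw [hy, List.mem_cons, List.mem_map] at hb
    rcases hb with rfl | ⟨c, hc, rfl⟩
    · rw [Int.natAbs_natCast]; omega
    · rw [Int.natAbs_natCast]
      have := List.le_sum_of_mem hc
      omega
  refine ⟨y ++ [(A : ℤ), -((A + N : ℕ) : ℤ)], by simp [hy, hlen], ?_, ?_, ?_, A + N, by omega,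
    ⟨-((A + N : ℕ) : ℤ), by simp, by rw [Int.natAbs_neg, Int.natAbs_natCast]⟩, ?_, ?_⟩
  · intro b hb
    simp only [List.mem_append, List.mem_cons, List.not_mem_nil, or_false] at hb
    rcases hb with hb | rfl | rfl
    · intro h0
      rw [h0] at hb
      have h1 := hymem 0 hb
      rw [zero_dvd_iff, hyprod] at h1
      have : R = 0 := by exact_mod_cast h1
      omega
    · have : A ≠ 0 := by omega
      exact_mod_cast this
    · rw [neg_ne_zero]
      have : A + N ≠ 0 := by omega
      exact_mod_cast this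
  · rw [List.pairwise_append]
    refine ⟨?_, ?_, ?_⟩
    · rw [hy]
      have hcop2 := List.pairwise_cons.1 hcop
      refine List.pairwise_cons.2 ⟨?_, ?_⟩
      · intro b hb
        rw [List.mem_map] at hb
        obtain ⟨c, hc, rfl⟩ := hb
        refine Nat.isCoprime_iff_coprime.2 (Nat.Coprime.mul_left ?_ (hcop2.1 c hc))
        exact Nat.Coprime.coprime_dvd_right (List.dvd_prod (List.mem_cons_of_mem _ hc)) hκp
      · rw [List.pairwise_map]
        exact hcop2.2.imp fun h => Nat.isCoprime_iff_coprime.2 h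
    · refine List.pairwise_cons.2 ⟨?_, List.pairwise_singleton _ _⟩
      intro b hb
      rw [List.mem_singleton] at hb
      rw [hb]
      refine IsCoprime.neg_right ?_
      exact Nat.isCoprime_iff_coprime.2 hAAc
    · intro a ha b hb
      simp only [List.mem_cons, List.not_mem_nil, or_false] at hb
      rcases hb with rfl | rfl
      · exact hcopA A hAR a ha
      · exact (hcopA (A + N) hAcR a ha).neg_right
  · rw [List.sum_append, hysum]
    simp only [List.sum_cons, List.sum_nil, add_zero]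
    push_cast
    ring
  · intro b hb
    simp only [List.mem_append, List.mem_cons, List.not_mem_nil, or_false] at hb
    rcases hb with hb | rfl | rfl
    · have := hymem' b hb
      omega
    · rw [Int.natAbs_natCast]; omega
    · rw [Int.natAbs_neg, Int.natAbs_natCast]
  · rw [lrad_append y A N hAs hAcs hAAc (by rw [hyprodabs]; exact hAR)
      (by rw [hyprodabs]; exact hAcR), hlrady, hR]
    have hAposR : (0 : ℝ) < A := by
      have : 0 < A := by omega
      exact_mod_cast this
    have hNposR : (0 : ℝ) < N := by exact_mod_cast hNpos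
    have hκR : (0 : ℝ) < κ := by exact_mod_cast hκpos
    have hpR : (0 : ℝ) < ((a :: l₂).prod : ℕ) := by exact_mod_cast hppos
    have e1 : Real.log ((κ * (a :: l₂).prod * (A * (A + N)) : ℕ) : ℝ) =
        Real.log κ + Real.log ((a :: l₂).prod : ℕ) + (Real.log A + Real.log ((A : ℝ) + N)) := by
      rw [Nat.cast_mul, Nat.cast_mul, Nat.cast_mul, Nat.cast_add,
        Real.log_mul (by positivity) (by positivity), Real.log_mul hκR.ne' hpR.ne',
        Real.log_mul hAposR.ne' (by positivity)]
    rw [e1]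
    set Λ : ℝ := Real.log (2 * k + 6) with hΛ
    have hkR : (0 : ℝ) ≤ k := Nat.cast_nonneg k
    have hΛ0 : 0 ≤ Λ := Real.log_nonneg (by linarith)
    have b1 : 0 ≤ Real.log κ := Real.log_nonneg (by exact_mod_cast hκpos)
    have b2 : Real.log κ ≤ Λ := Real.log_le_log hκR (by
      have : (κ : ℝ) ≤ 2 := by exact_mod_cast hκ2
      linarith)
    have b3 : Real.log H ≤ Real.log A := Real.log_le_log hHpos (by exact_mod_cast hA1)
    have b4 : Real.log A ≤ Real.log ((A : ℝ) + N) := Real.log_le_log hAposR (by linarith)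
    have b5 : Real.log ((A : ℝ) + N) ≤ Λ + Real.log H := by
      rw [hΛ, ← Real.log_mul (by positivity) hHpos.ne']
      refine Real.log_le_log (by positivity) ?_
      have h1 : (A : ℝ) ≤ 2 * H := by exact_mod_cast hA2
      have h2 : (N : ℝ) ≤ (2 * k + 4) * H := by exact_mod_cast hNle
      linarith
    have f3 := abs_le.1 hlog
    have hL0 : 0 ≤ Real.log H := Real.log_natCast_nonneg H
    have e2 : ((A + N : ℕ) : ℝ) = (A : ℝ) + N := Nat.cast_add A N
    rw [e2]
    set L := Real.log H with hLdef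
    set V := Real.log ((A : ℝ) + N) with hV
    have hs0 : 0 ≤ s := by linarith
    have c1 : s * L ≤ s * V := mul_le_mul_of_nonneg_left (b3.trans b4) hs0
    have c2 : s * V ≤ s * (Λ + L) := mul_le_mul_of_nonneg_left b5 hs0
    have c3 : η * L ≤ η * V := mul_le_mul_of_nonneg_left (b3.trans b4) hη.le
    have c4 : (s + 4) * Λ ≤ η / 4 * L := hCb
    have c5 : 0 ≤ s * Λ := mul_nonneg hs0 hΛ0
    have c6 : 0 ≤ η * L := mul_nonneg hη.le hL0
    have f3a := f3.1
    have f3b := f3.2
    rw [abs_le]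
    constructor
    · linarith
    · linarith

end Pool.Agent.V5helper13.LP
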