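import Pool.Agent.V5helper13.LP.Fam
import Pool.Agent.V5helper13.LP.Gen

set_option autoImplicit false

/-!
# Limit points of the qualities: the final statements
-/

namespace Pool.Agent.V5helper13.LP

open Finset Filter

theorem limit_of_good {n : ℕ} {q : ℝ} (hq : 0 < q) (h : Good n (1 / q)) : LimitPoint n q := by
  have := h.limitPoint (by positivity)
  rwa [one_div_one_div] at this

theorem low (n : ℕ) (hn : 3 ≤ n) (q : ℝ) (h1 : 1 / (n : ℝ) ≤ q) (h2 : q ≤ 1 / 2) :
    LimitPoint n q := by
  obtain ⟨k, rfl⟩ : ∃ k, n = k + 2 := ⟨n - 2, by omega⟩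
  have hn0 : (0 : ℝ) < ((k + 2 : ℕ) : ℝ) := by positivity
  have hq : 0 < q := lt_of_lt_of_le (by positivity) h1
  refine limit_of_good hq (good_gen k (by omega) _ ?_ ?_)
  · rw [le_div_iff₀ hq]; linarith
  · rw [div_le_iff₀ hn0] at h1
    rw [div_le_iff₀ hq]
    push_cast at h1
    linarith

theorem odd_case (n : ℕ) (hn : 5 ≤ n) (ho : Odd n) (q : ℝ) (h1 : 1 / (n : ℝ) ≤ q)
    (h2 : q ≤ 5 / 3) : LimitPoint n q := by
  rcases le_total q (1 / 2) with h | h
  · exact low n (by omega) q h1 h
  · obtain ⟨k, rfl⟩ : ∃ k, n = 5 + 2 * k := by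
      obtain ⟨t, ht⟩ := ho
      exact ⟨t - 2, by omega⟩
    have hq : 0 < q := by linarith
    refine limit_of_good hq ((good_odd ?_ ?_).add_even k)
    · rw [le_div_iff₀ hq]; linarith
    · rw [div_le_iff₀ hq]; linarith

theorem even_case (n : ℕ) (hn : 6 ≤ n) (he : Even n) (q : ℝ) (h1 : 1 / (n : ℝ) ≤ q)
    (h2 : q ≤ 7 / 5) : LimitPoint n q := by
  rcases le_total q (1 / 2) with h | h
  · exact low n (by omega) q h1 h
  · obtain ⟨k, rfl⟩ : ∃ k, n = 6 + 2 * k := by
      obtain ⟨t, ht⟩ := he
      exact ⟨t - 3, by omega⟩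
    have hq : 0 < q := by linarith
    refine limit_of_good hq ((good_even ?_ ?_).add_even k)
    · rw [le_div_iff₀ hq]; linarith
    · rw [div_le_iff₀ hq]; linarith

theorem dilution' (n k : ℕ) (q : ℝ)
    (h : ∀ M : ℝ, M < q → ∀ B : ℕ, ∃ x : Fin n → ℤ, Admissible x ∧ B ≤ height x ∧
      (rad x : ℝ) ^ M < height x) (q' : ℝ) (h1 : 1 / ((n + 4 + 2 * k : ℕ) : ℝ) ≤ q')
    (h2 : q' ≤ q) : LimitPoint (n + 4 + 2 * k) q' := by
  rcases le_or_gt q' (1 / 2) with h3 | h3
  · exact low _ (by omega) q' h1 h3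
  · have hq : 0 < q' := by linarith
    refine limit_of_good hq ?_
    have hs0 : 0 < 1 / q' := by positivity
    have hg : Good (n + 2 + 2) (1 / q') := by
      refine dilute (n + 2) 2 (by decide) (by norm_num) (1 / q') hs0 ?_
        (core_tuple n (1 / q') hs0 ?_)
      · rw [div_lt_iff₀ hq]; linarith
      · rw [one_div_one_div]
        exact fun M hM => h M (by linarith)
    exact hg.add_even k

theorem finite_height (n B : ℕ) : {x : Fin n → ℤ | height x ≤ B}.Finite := by
  refine (Set.finite_Icc (fun _ : Fin n => -(B : ℤ)) (fun _ : Fin n => (B : ℤ))).subset ?_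
  intro x hx
  have hx' : height x ≤ B := hx
  have h1 : ∀ i, (x i).natAbs ≤ B := fun i =>
    (Finset.le_sup (f := fun i => (x i).natAbs) (mem_univ i)).trans hx'
  refine ⟨fun i => ?_, fun i => ?_⟩
  · have := h1 i
    show -(B : ℤ) ≤ x i
    omega
  · have := h1 i
    show x i ≤ (B : ℤ)
    omega

theorem dilution (n k : ℕ) (q : ℝ)
    (h : ∀ M : ℝ, M < q → {x : Fin n → ℤ | Admissible x ∧ (rad x : ℝ) ^ M < height x}.Infinite)
    (q' : ℝ) (h1 : 1 / ((n + 4 + 2 * k : ℕ) : ℝ) ≤ q')
    (h2 : q' ≤ q) : LimitPoint (n + 4 + 2 * k) q' := by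
  refine dilution' n k q (fun M hM B => ?_) q' h1 h2
  by_contra hcon
  push Not at hcon
  refine h M hM ((finite_height n B).subset ?_)
  rintro x ⟨hx, hq⟩
  by_contra hB
  have hB' : ¬ height x ≤ B := hB
  have := hcon x hx (by omega)
  linarith

theorem one_le_rad {n : ℕ} (x : Fin n → ℤ) : 1 ≤ rad x := by
  unfold rad
  exact Finset.one_le_prod' fun p hp => (Nat.prime_of_mem_primeFactors hp).one_le

theorem height_le_one {n : ℕ} {x : Fin n → ℤ} (hx : Admissible x) (h : rad x = 1) :
    height x ≤ 1 := by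
  have hne : (∏ i, x i).natAbs ≠ 0 := by
    rw [Int.natAbs_ne_zero]
    exact prod_ne_zero_iff.2 fun i _ => hx.1 i
  have hpf : (∏ i, x i).natAbs.primeFactors = ∅ := by
    by_contra hcon
    obtain ⟨p, hp⟩ := Finset.nonempty_iff_ne_empty.2 hcon
    have h1 : p ∣ rad x := by
      unfold rad
      exact dvd_prod_of_mem (fun p => p) hp
    rw [h] at h1
    exact (Nat.prime_of_mem_primeFactors hp).one_lt.ne' (Nat.dvd_one.1 h1)
  have h1 : (∏ i, x i).natAbs = 1 := by
    rcases Nat.primeFactors_eq_empty.1 hpf with h2 | h2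
    · exact absurd h2 hne
    · exact h2
  unfold height
  refine Finset.sup_le fun i _ => ?_
  have h2 : (x i).natAbs ∣ (∏ i, x i).natAbs :=
    Int.natAbs_dvd_natAbs.2 (dvd_prod_of_mem x (mem_univ i))
  rw [h1] at h2
  exact Nat.le_of_dvd one_pos h2

theorem unbounded (n : ℕ) (h : ∀ M : ℝ, ∃ x : Fin n → ℤ, Admissible x ∧
    (rad x : ℝ) ^ M < height x) (M : ℝ) (B : ℕ) : ∃ x : Fin n → ℤ, Admissible x ∧
      B ≤ height x ∧ (rad x : ℝ) ^ M < height x := by
  obtain ⟨x, hx, hlt⟩ := h (max M (B + 1))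
  have h1 : (1 : ℝ) ≤ rad x := by exact_mod_cast one_le_rad x
  have hrad2 : 2 ≤ rad x := by
    by_contra hcon
    have h2 : rad x = 1 := le_antisymm (by omega) (one_le_rad x)
    have h3 := height_le_one hx h2
    rw [h2] at hlt
    simp only [Nat.cast_one, Real.one_rpow] at hlt
    have : (1 : ℕ) < height x := by exact_mod_cast hlt
    omega
  refine ⟨x, hx, ?_, ?_⟩
  · have h2 : (2 : ℝ) ≤ rad x := by exact_mod_cast hrad2
    have h3 : (B : ℝ) < height x := by
      calc (B : ℝ) < 2 ^ (B + 1) := by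
            have : B < 2 ^ (B + 1) := lt_of_lt_of_le (Nat.lt_two_pow_self)
              (Nat.pow_le_pow_right (by norm_num) (by omega))
            exact_mod_cast this
        _ ≤ (rad x : ℝ) ^ (B + 1) := pow_le_pow_left₀ (by norm_num) h2 _
        _ = (rad x : ℝ) ^ ((B : ℝ) + 1) := by
            rw [← Real.rpow_natCast]; push_cast; rfl
        _ ≤ (rad x : ℝ) ^ (max M (B + 1)) :=
            Real.rpow_le_rpow_of_exponent_le h1 (le_max_right _ _)
        _ < height x := hlt
    have : B < height x := by exact_mod_cast h3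
    exact this.le
  · exact lt_of_le_of_lt (Real.rpow_le_rpow_of_exponent_le h1 (le_max_left _ _)) hlt

theorem not_below (n : ℕ) (hn : 1 ≤ n) (q : ℝ) (hq : q < 1 / n) : ¬ LimitPoint n q := by
  intro h
  refine h (1 / n - q) (by linarith) ((finite_height n 1).subset ?_)
  rintro x ⟨hx, hlt⟩
  have hnR : (0 : ℝ) < n := by exact_mod_cast hn
  by_contra hcon
  have hcon' : ¬ height x ≤ 1 := hcon
  have hrad : rad x ≠ 1 := fun h1 => hcon' (height_le_one hx h1)
  have hrad2 : 2 ≤ rad x := by
    have := one_le_rad x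
    omega
  have hr0 : 0 < Real.log (rad x) := Real.log_pos (by
    have : (2 : ℝ) ≤ rad x := by exact_mod_cast hrad2
    linarith)
  have hle : rad x ≤ height x ^ n := by
    have hne : (∏ i, x i).natAbs ≠ 0 := by
      rw [Int.natAbs_ne_zero]
      exact prod_ne_zero_iff.2 fun i _ => hx.1 i
    calc rad x ≤ (∏ i, x i).natAbs :=
          Nat.le_of_dvd (Nat.pos_of_ne_zero hne) (Nat.prod_primeFactors_dvd _)
      _ = ∏ i, (x i).natAbs := by
          rw [← Int.natAbsHom_apply, map_prod]; rfl
      _ ≤ ∏ _i : Fin n, height x := prod_le_prod' fun i _ =>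
          Finset.le_sup (f := fun i => (x i).natAbs) (mem_univ i)
      _ = height x ^ n := by simp
  have hlog : Real.log (rad x) ≤ n * Real.log (height x) := by
    rw [← Real.log_pow]
    refine Real.log_le_log (by exact_mod_cast one_le_rad x) (by exact_mod_cast hle)
  have h1 : 1 / (n : ℝ) ≤ quality x := by
    unfold quality
    rw [div_le_div_iff₀ hnR hr0]
    linarith
  have h2 := (abs_lt.1 hlt).2
  linarith

theorem q1_iff : (∀ n : ℕ, 3 ≤ n → ∃ M : ℝ, ∀ x : Fin n → ℤ, Admissible x →
      ∀ j, |((x j : ℤ) : ℝ)| ≤ (rad x : ℝ) ^ M) ↔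
    ∀ m : ℕ, ∃ (k : ℕ) (q : ℝ), 1 / ((m + 2 * k : ℕ) : ℝ) ≤ q ∧ ¬ LimitPoint (m + 2 * k) q := by
  constructor
  · intro h m
    obtain ⟨M, hM⟩ := h (m + 2 * 3) (by omega)
    refine ⟨3, max M 1 + 1, ?_, fun hL => ?_⟩
    · have h1 : (1 : ℝ) ≤ ((m + 2 * 3 : ℕ) : ℝ) := by
        have : 1 ≤ m + 2 * 3 := by omega
        exact_mod_cast this
      have h2 : 1 / ((m + 2 * 3 : ℕ) : ℝ) ≤ 1 := by
        rw [div_le_one (by linarith)]; exact h1
      have h3 := le_max_right M (1 : ℝ)
      linarith
    · refine hL (1 / 2) (by norm_num) ?_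
      convert Set.finite_empty
      rw [Set.eq_empty_iff_forall_notMem]
      rintro x ⟨hx, hlt⟩
      have hquality : quality x ≤ max M 1 := by
        unfold quality
        rcases Nat.lt_or_ge (rad x) 2 with hr | hr
        · have h1 : rad x = 1 := by
            have := one_le_rad x
            omega
          rw [h1]
          simp only [Nat.cast_one, Real.log_one, div_zero]
          exact le_trans zero_le_one (le_max_right _ _)
        · have hr2 : (2 : ℝ) ≤ rad x := by exact_mod_cast hr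
          have hr0 : 0 < Real.log (rad x) := Real.log_pos (by linarith)
          rw [div_le_iff₀ hr0]
          have hle : (height x : ℝ) ≤ (rad x : ℝ) ^ (max M 1) := by
            obtain ⟨i, -, hi⟩ := Finset.exists_mem_eq_sup (Finset.univ : Finset (Fin (m + 2 * 3)))
              ⟨⟨0, by omega⟩, mem_univ _⟩ (fun i => (x i).natAbs)
            have h1 : (height x : ℝ) = |((x i : ℤ) : ℝ)| := by
              unfold height
              rw [hi, Nat.cast_natAbs, Int.cast_abs]
            rw [h1]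
            exact (hM x hx i).trans
              (Real.rpow_le_rpow_of_exponent_le (by linarith) (le_max_left _ _))
          rcases Nat.eq_zero_or_pos (height x) with h0 | h0
          · rw [h0]
            simp only [Nat.cast_zero, Real.log_zero]
            have := le_max_right M (1 : ℝ)
            positivity
          · have hhpos : (0 : ℝ) < height x := by exact_mod_cast h0
            have h2 := Real.log_le_log hhpos hle
            rwa [Real.log_rpow (by linarith)] at h2
      have h2 := (abs_lt.1 hlt).1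
      linarith
  · intro h n hn
    by_contra hcon
    push Not at hcon
    obtain ⟨k, q, hq, hL⟩ := h (n + 4)
    refine hL (dilution' n k q (fun M _ B => unbounded n (fun M => ?_) M B) q hq le_rfl)
    obtain ⟨x, hx, j, hj⟩ := hcon M
    refine ⟨x, hx, hj.trans_le ?_⟩
    have h1 : (x j).natAbs ≤ height x :=
      Finset.le_sup (f := fun i => (x i).natAbs) (mem_univ j)
    have h2 : |((x j : ℤ) : ℝ)| = (((x j).natAbs : ℕ) : ℝ) := by
      rw [Nat.cast_natAbs, Int.cast_abs]
    rw [h2]
    exact_mod_cast h1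

end Pool.Agent.V5helper13.LP
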