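import Pool.Agent.V5helper13.LP.Fin

set_option autoImplicit false

/-!
# Limit points of the qualities for `n = 4`: the tuples `3 ^ e, 2 - 3 ^ e, A, -(A + 2)`
-/

namespace Pool.Agent.V5helper13.LP

open Finset Filter

theorem core_four (s : ℝ) (hs : 1 ≤ s) : Core 2 2 s := by
  refine core_of 2 2 1 1 3 (by norm_num) (by norm_num) s (by push_cast; linarith) fun N => ?_
  obtain ⟨e, he⟩ : ∃ e, e = N + 2 := ⟨_, rfl⟩
  obtain ⟨X, hX⟩ : ∃ X : ℕ, X = 3 ^ e := ⟨_, rfl⟩
  have hXe : N + 2 < X := by
    rw [hX, ← he]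
    exact Nat.lt_pow_self (by norm_num)
  obtain ⟨Y, hY⟩ : ∃ Y : ℕ, X = Y + 2 := ⟨X - 2, by omega⟩
  have hYpos : 0 < Y := by omega
  have hXY : (X : ℤ) = Y + 2 := by rw [hY]; push_cast; ring
  have hodd : Odd X := by rw [hX]; exact Odd.pow (by decide)
  have hcopn : Nat.Coprime X Y := by
    have h1 : Nat.Coprime X 2 := Nat.coprime_two_right.2 hodd
    have h2 : Nat.Coprime (Y + 2) 2 := by rw [← hY]; exact h1
    have h3 : Nat.Coprime Y 2 := by
      rw [Nat.coprime_add_self_left] at h2
      exact h2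
    rw [hY, Nat.coprime_comm, Nat.coprime_self_add_right]
    exact h3
  have hcop : IsCoprime (X : ℤ) (Y : ℤ) := Nat.isCoprime_iff_coprime.2 hcopn
  refine ⟨X, by omega, [(X : ℤ), -(Y : ℤ)], rfl, ?_, ?_, ?_, ⟨(X : ℤ), by simp, ?_⟩, ?_, ?_⟩
  · intro a ha
    simp only [List.mem_cons, List.not_mem_nil, or_false] at ha
    rcases ha with rfl | rfl
    · have : X ≠ 0 := by omega
      exact_mod_cast this
    · rw [neg_ne_zero]
      exact_mod_cast hYpos.ne'
  · refine List.pairwise_cons.2 ⟨?_, List.pairwise_singleton _ _⟩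
    intro b hb
    rw [List.mem_singleton] at hb
    rw [hb]
    exact hcop.neg_right
  · simp only [List.sum_cons, List.sum_nil]
    rw [hXY]
    push_cast
    ring
  · rw [Int.natAbs_natCast, pow_one]
  · intro a ha
    simp only [List.mem_cons, List.not_mem_nil, or_false] at ha
    rcases ha with rfl | rfl
    · rw [Int.natAbs_natCast, pow_one]
    · rw [Int.natAbs_neg, Int.natAbs_natCast, pow_one]
      omega
  · have hW : lrad [(X : ℤ), -(Y : ℤ)] ≤ 3 * Y := by
      refine lrad_le_of _ _ (by omega) fun p hp a ha hpa => ?_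
      simp only [List.mem_cons, List.not_mem_nil, or_false] at ha
      rcases ha with rfl | rfl
      · have h2 : p ∣ X := by exact_mod_cast hpa
        rw [hX] at h2
        exact (hp.dvd_of_dvd_pow h2).mul_right _
      · rw [dvd_neg] at hpa
        have h2 : p ∣ Y := by exact_mod_cast hpa
        exact h2.mul_left _
    rw [pow_one]
    omega

theorem four (q : ℝ) (h1 : 1 / 4 ≤ q) (h2 : q ≤ 1) : LimitPoint 4 q := by
  rcases le_total q (1 / 2) with h | h
  · refine low 4 (by norm_num) q ?_ h
    push_cast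
    exact h1
  · have hq : 0 < q := by linarith
    refine limit_of_good hq (good_of_core (m := 2) (c := 2) (by decide) (by norm_num)
      (by positivity) ?_ fun s' _ _ h => core_four s' ?_)
    · rw [div_le_iff₀ hq]; linarith
    · rcases h with h | h
      · rw [h, le_div_iff₀ hq]; linarith
      · exact h

end Pool.Agent.V5helper13.LP
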