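import Pool.Agent.V5helper13.LP.Four

set_option autoImplicit false

/-!
# From even `n` to odd `n + 7 + 2 k`
-/

namespace Pool.Agent.V5helper13.LP

open Finset Filter

theorem odd_entries {n : ℕ} (he : Even n) {x : Fin n → ℤ} (hx : Admissible x) (i : Fin n) :
    Odd (x i) := by
  by_contra hcon
  rw [Int.not_odd_iff_even] at hcon
  obtain ⟨-, hcop, hsum⟩ := hx
  have hothers : ∀ j, j ≠ i → Odd (x j) := by
    intro j hj
    by_contra h2
    rw [Int.not_odd_iff_even] at h2
    have h3 : (2 : ℤ) ∣ Int.gcd (x i) (x j) := Int.dvd_coe_gcd hcon.two_dvd h2.two_dvd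
    rw [hcop i j hj.symm] at h3
    norm_num at h3
  have h1 : ((∑ j, x j : ℤ) : ZMod 2) = ((n - 1 : ℕ) : ZMod 2) := by
    rw [Int.cast_sum, ← Finset.add_sum_erase _ _ (mem_univ i)]
    have h2 : ((x i : ℤ) : ZMod 2) = 0 := by
      rw [ZMod.intCast_zmod_eq_zero_iff_dvd]
      exact_mod_cast hcon.two_dvd
    have h3 : ∑ j ∈ univ.erase i, ((x j : ℤ) : ZMod 2) = ∑ _j ∈ univ.erase i, (1 : ZMod 2) := by
      refine Finset.sum_congr rfl fun j hj => ?_
      obtain ⟨t, ht⟩ := hothers j (ne_of_mem_erase hj)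
      rw [ht]
      push_cast
      have : (2 : ZMod 2) = 0 := by decide
      rw [this]
      ring
    rw [h2, h3, zero_add]
    simp [card_erase_of_mem]
  rw [hsum] at h1
  have h2 : ((n - 1 : ℕ) : ZMod 2) = 0 := by rw [← h1]; simp
  rw [ZMod.natCast_eq_zero_iff] at h2
  have hn := i.2
  obtain ⟨t, ht⟩ := he
  omega

/-- from admissible tuples of large quality, `n` even -/
theorem core_tuple_even (n : ℕ) (he : Even n) (s : ℝ) (hs : 0 < s)
    (h : ∀ M : ℝ, M < 1 / s → ∀ B : ℕ, ∃ x : Fin n → ℤ, Admissible x ∧ B ≤ height x ∧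
      (rad x : ℝ) ^ M < height x) : Core (n + 5) 2 s := by
  intro η hη B
  have h1 : Tendsto (fun x : ℝ => η / 2 * Real.log x) atTop atTop :=
    Real.tendsto_log_atTop.const_mul_atTop (by positivity)
  obtain ⟨X₀, hX₀⟩ := eventually_atTop.1 (h1.eventually_ge_atTop (Real.log 2))
  obtain ⟨x, hx, hB, hq⟩ := h (1 / (s + η / 2))
    (one_div_lt_one_div_of_lt hs (by linarith)) (B + ⌈X₀⌉₊ + 2)
  have hodd := odd_entries he hx
  obtain ⟨hne, hcop, hsum⟩ := hx
  have hprod : (1 :: 1 :: 1 :: 1 :: (-2) :: List.ofFn x).prod = -2 * ∏ i, x i := by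
    simp [List.prod_ofFn]
  have hprodne : (∏ i, x i) ≠ 0 := prod_ne_zero_iff.2 fun i _ => hne i
  have hrad : lrad (1 :: 1 :: 1 :: 1 :: (-2) :: List.ofFn x) ≤ 2 * rad x := by
    refine lrad_le_of _ _ ?_ fun p hp a ha hpa => ?_
    · have := one_le_rad x
      omega
    · have key : ∀ i, (p : ℤ) ∣ x i → p ∣ rad x := by
        intro i hi
        unfold rad
        refine dvd_prod_of_mem (fun p => p) (Nat.mem_primeFactors.2 ⟨hp, ?_, ?_⟩)
        · exact Int.natCast_dvd.1 (hi.trans (dvd_prod_of_mem x (mem_univ i)))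
        · rw [Int.natAbs_ne_zero]; exact hprodne
      simp only [List.mem_cons, List.mem_ofFn] at ha
      have h1 : ¬ (p : ℤ) ∣ 1 := (Nat.prime_iff_prime_int.mp hp).not_dvd_one
      rcases ha with rfl | rfl | rfl | rfl | rfl | ⟨i, rfl⟩
      · exact absurd hpa h1
      · exact absurd hpa h1
      · exact absurd hpa h1
      · exact absurd hpa h1
      · rw [dvd_neg] at hpa
        have h2 : p ∣ 2 := by exact_mod_cast hpa
        exact h2.mul_right _
      · exact (key i hpa).mul_left _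
  have hn : (Finset.univ : Finset (Fin n)).Nonempty := by
    by_contra hcon
    rw [Finset.not_nonempty_iff_eq_empty] at hcon
    have : height x = 0 := by
      unfold height
      rw [hcon]
      simp
    omega
  have h2x : ∀ i, IsCoprime (-2 : ℤ) (x i) := by
    intro i
    refine IsCoprime.neg_left ?_
    obtain ⟨t, ht⟩ := hodd i
    rw [ht]
    exact ⟨-t, 1, by ring⟩
  refine ⟨1 :: 1 :: 1 :: 1 :: (-2) :: List.ofFn x, by simp, ?_, ?_, ?_, height x, by omega,
    ?_, ?_, ?_⟩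
  · intro a ha
    simp only [List.mem_cons, List.mem_ofFn] at ha
    rcases ha with rfl | rfl | rfl | rfl | rfl | ⟨i, rfl⟩
    · norm_num
    · norm_num
    · norm_num
    · norm_num
    · norm_num
    · exact hne i
  · refine List.pairwise_cons.2 ⟨fun b _ => isCoprime_one_left, List.pairwise_cons.2
      ⟨fun b _ => isCoprime_one_left, List.pairwise_cons.2
      ⟨fun b _ => isCoprime_one_left, List.pairwise_cons.2
      ⟨fun b _ => isCoprime_one_left, List.pairwise_cons.2 ⟨?_, ?_⟩⟩⟩⟩⟩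
    · intro b hb
      rw [List.mem_ofFn] at hb
      obtain ⟨i, rfl⟩ := hb
      exact h2x i
    · rw [List.pairwise_ofFn]
      intro i j hij
      rw [Int.isCoprime_iff_gcd_eq_one]
      exact hcop i j hij.ne
  · simp [List.sum_ofFn, hsum]
  · obtain ⟨i, -, hi⟩ := Finset.exists_mem_eq_sup _ hn (fun i => (x i).natAbs)
    exact ⟨x i, by simp, hi.symm⟩
  · intro a ha
    simp only [List.mem_cons, List.mem_ofFn] at ha
    have e1 : (1 : ℤ).natAbs = 1 := rfl
    have e2 : (-2 : ℤ).natAbs = 2 := rfl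
    rcases ha with rfl | rfl | rfl | rfl | rfl | ⟨i, rfl⟩
    · omega
    · omega
    · omega
    · omega
    · omega
    · exact Finset.le_sup (f := fun i => (x i).natAbs) (mem_univ i)
  · have hrpos : (0 : ℝ) < rad x := by exact_mod_cast one_le_rad x
    have hlpos : (0 : ℝ) < lrad (1 :: 1 :: 1 :: 1 :: (-2) :: List.ofFn x) := by
      exact_mod_cast one_le_lrad _
    have h1 := Real.log_lt_log (Real.rpow_pos_of_pos hrpos _) hq
    rw [Real.log_rpow hrpos, one_div, inv_mul_lt_iff₀ (by linarith)] at h1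
    have h2 : (lrad (1 :: 1 :: 1 :: 1 :: (-2) :: List.ofFn x) : ℝ) ≤ 2 * rad x := by
      exact_mod_cast hrad
    have h3 := Real.log_le_log hlpos h2
    rw [Real.log_mul (by norm_num) hrpos.ne'] at h3
    have h4 := hX₀ (height x) (by
      refine (Nat.le_ceil X₀).trans ?_
      have : ⌈X₀⌉₊ ≤ height x := by omega
      exact_mod_cast this)
    have e : (s + η) * Real.log (height x) =
        (s + η / 2) * Real.log (height x) + η / 2 * Real.log (height x) := by ring
    rw [e]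
    linarith

theorem dilution_even' (n k : ℕ) (he : Even n) (q : ℝ)
    (h : ∀ M : ℝ, M < q → ∀ B : ℕ, ∃ x : Fin n → ℤ, Admissible x ∧ B ≤ height x ∧
      (rad x : ℝ) ^ M < height x) (q' : ℝ) (h1 : 1 / ((n + 7 + 2 * k : ℕ) : ℝ) ≤ q')
    (h2 : q' ≤ q) : LimitPoint (n + 7 + 2 * k) q' := by
  rcases le_or_gt q' (1 / 2) with h3 | h3
  · exact low _ (by omega) q' h1 h3
  · have hq : 0 < q' := by linarith
    refine limit_of_good hq ?_
    have hs0 : 0 < 1 / q' := by positivity
    have hg : Good (n + 5 + 2) (1 / q') := by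
      refine dilute (n + 5) 2 (by decide) (by norm_num) (1 / q') hs0 ?_
        (core_tuple_even n he (1 / q') hs0 ?_)
      · rw [div_lt_iff₀ hq]; linarith
      · rw [one_div_one_div]
        exact fun M hM => h M (by linarith)
    exact hg.add_even k

theorem dilution_even (n k : ℕ) (he : Even n) (q : ℝ)
    (h : ∀ M : ℝ, M < q → {x : Fin n → ℤ | Admissible x ∧ (rad x : ℝ) ^ M < height x}.Infinite)
    (q' : ℝ) (h1 : 1 / ((n + 7 + 2 * k : ℕ) : ℝ) ≤ q')
    (h2 : q' ≤ q) : LimitPoint (n + 7 + 2 * k) q' := by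
  refine dilution_even' n k he q (fun M hM B => ?_) q' h1 h2
  by_contra hcon
  push Not at hcon
  refine h M hM ((finite_height n B).subset ?_)
  rintro x ⟨hx, hq⟩
  by_contra hB
  have hB' : ¬ height x ≤ B := hB
  have := hcon x hx (by omega)
  linarith

theorem q1_iff_odd : (∀ n : ℕ, 3 ≤ n → ∃ M : ℝ, ∀ x : Fin n → ℤ, Admissible x →
      ∀ j, |((x j : ℤ) : ℝ)| ≤ (rad x : ℝ) ^ M) ↔
    ∀ m : ℕ, ∃ n : ℕ, m ≤ n ∧ Odd n ∧ ∃ q : ℝ, 1 / (n : ℝ) ≤ q ∧ ¬ LimitPoint n q := by
  constructor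
  · intro h m
    have h' := q1_iff.1 h (2 * m + 1)
    obtain ⟨k, q, hq, hL⟩ := h'
    exact ⟨2 * m + 1 + 2 * k, by omega, ⟨m + k, by ring⟩, q, hq, hL⟩
  · intro h n hn
    by_contra hcon
    push Not at hcon
    have hun : ∀ (M : ℝ) (B : ℕ), ∃ x : Fin n → ℤ, Admissible x ∧ B ≤ height x ∧
        (rad x : ℝ) ^ M < height x := by
      intro M B
      refine unbounded n (fun M => ?_) M B
      obtain ⟨x, hx, j, hj⟩ := hcon M
      refine ⟨x, hx, hj.trans_le ?_⟩
      have h1 : (x j).natAbs ≤ height x :=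
        Finset.le_sup (f := fun i => (x i).natAbs) (mem_univ j)
      have h2 : |((x j : ℤ) : ℝ)| = (((x j).natAbs : ℕ) : ℝ) := by
        rw [Nat.cast_natAbs, Int.cast_abs]
      rw [h2]
      exact_mod_cast h1
    obtain ⟨N, hN, hNodd, q, hq, hL⟩ := h (n + 7)
    rcases Nat.even_or_odd n with he | ho
    · obtain ⟨k, rfl⟩ : ∃ k, N = n + 7 + 2 * k := by
        obtain ⟨t, ht⟩ := hNodd
        obtain ⟨u, hu⟩ := he
        exact ⟨t - u - 3, by omega⟩
      exact hL (dilution_even' n k he q (fun M _ B => hun M B) q hq le_rfl)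
    · obtain ⟨k, rfl⟩ : ∃ k, N = n + 4 + 2 * k := by
        obtain ⟨t, ht⟩ := hNodd
        obtain ⟨u, hu⟩ := ho
        exact ⟨t - u - 2, by omega⟩
      exact hL (dilution' n k q (fun M _ B => hun M B) q hq le_rfl)

end Pool.Agent.V5helper13.LP
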