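import Mathlib

set_option autoImplicit false

/-!
# An elementary sieve: `A` and `A + c` squarefree and coprime to a given number `P`

For `Y` large in terms of `K, D`, every even `c ≤ K Y` and every multiple `P ≤ Y ^ D` of `c` there is
`A` in `[Y, 2 Y]` such that `A` and `A + c` are squarefree and coprime to `P` (and to each other).
-/

namespace Pool.Agent.V5helper13.LP

open Finset

theorem card_prog (Q a d L s : ℕ) (hd : 0 < d) (hco : Nat.Coprime Q d) :
    ((Ico s (s + L)).filter (fun t => d ∣ a + Q * t)).card ≤ L / d + 2 := by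
  have hinj : Set.InjOn (fun t => t / d)
      (((Ico s (s + L)).filter (fun t => d ∣ a + Q * t)) : Set ℕ) := by
    have key : ∀ t₁ t₂ : ℕ, t₁ ≤ t₂ → d ∣ a + Q * t₁ → d ∣ a + Q * t₂ → t₁ / d = t₂ / d →
        t₁ = t₂ := by
      intro t₁ t₂ h12 h1 h2 h
      obtain ⟨k, rfl⟩ := Nat.exists_eq_add_of_le h12
      have h3 : d ∣ Q * k := by
        have : a + Q * (t₁ + k) = (a + Q * t₁) + Q * k := by ring
        rw [this] at h2
        exact (Nat.dvd_add_right h1).1 h2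
      have h4 : d ∣ k := (Nat.Coprime.dvd_of_dvd_mul_left hco.symm h3)
      obtain ⟨j, rfl⟩ := h4
      have h5 : (t₁ + d * j) / d = t₁ / d + j := by
        rw [Nat.add_mul_div_left _ _ hd]
      rw [h5] at h
      have : j = 0 := by omega
      subst this
      simp
    intro t₁ h1 t₂ h2 h
    simp only [coe_filter, Set.mem_ofPred_eq] at h1 h2
    rcases le_total t₁ t₂ with h12 | h12
    · exact key t₁ t₂ h12 h1.2 h2.2 h
    · exact (key t₂ t₁ h12 h2.2 h1.2 h.symm).symm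
  rw [← card_image_of_injOn hinj]
  have hsub : (((Ico s (s + L)).filter (fun t => d ∣ a + Q * t)).image (fun t => t / d)) ⊆
      Icc (s / d) (s / d + L / d + 1) := by
    intro x hx
    rw [mem_image] at hx
    obtain ⟨t, ht, rfl⟩ := hx
    rw [mem_filter, mem_Ico] at ht
    rw [mem_Icc]
    refine ⟨Nat.div_le_div_right ht.1.1, ?_⟩
    have h1 : t / d ≤ (s + L) / d := Nat.div_le_div_right ht.1.2.le
    have h2 : (s + L) / d ≤ s / d + L / d + 1 := by
      rw [Nat.add_div hd]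
      split_ifs <;> omega
    exact h1.trans h2
  refine (card_le_card hsub).trans ?_
  rw [Nat.card_Icc]
  generalize s / d = u
  generalize L / d = v
  omega

theorem crt (z c : ℕ) (hc : Even c) : ∃ g : ℕ, g < primorial z ∧ ∀ t p : ℕ, p.Prime → p ≤ z →
    ¬ p ∣ (1 + g) + primorial z * t ∧ ¬ p ∣ (1 + g) + primorial z * t + c := by
  classical
  set S := (range (z + 1)).filter Nat.Prime with hS
  set Q1 := ∏ p ∈ S.filter (fun p => ¬ p ∣ c + 1), p with hQ1
  set Q2 := ∏ p ∈ S.filter (fun p => ¬ ¬ p ∣ c + 1), p with hQ2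
  have hQ : Q1 * Q2 = primorial z := by
    rw [hQ1, hQ2, prod_filter_mul_prod_filter_not]
    rfl
  have hprime : ∀ p ∈ S, p.Prime := fun p hp => (mem_filter.1 hp).2
  have hcop : Nat.Coprime Q1 Q2 := by
    rw [hQ1, hQ2]
    refine Nat.Coprime.prod_left fun p hp => Nat.Coprime.prod_right fun q hq => ?_
    rw [mem_filter] at hp hq
    refine (Nat.coprime_primes (hprime p hp.1) (hprime q hq.1)).2 ?_
    rintro rfl
    exact hq.2 hp.2
  have h1 : Q1 ≠ 0 := by
    rw [hQ1]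
    exact prod_ne_zero_iff.2 fun p hp => (hprime p (mem_filter.1 hp).1).ne_zero
  have h2 : Q2 ≠ 0 := by
    rw [hQ2]
    exact prod_ne_zero_iff.2 fun p hp => (hprime p (mem_filter.1 hp).1).ne_zero
  obtain ⟨g, hg⟩ : ∃ g, g = (Nat.chineseRemainder hcop 0 1 : ℕ) := ⟨_, rfl⟩
  have hg1 : g ≡ 0 [MOD Q1] := by rw [hg]; exact (Nat.chineseRemainder hcop 0 1).2.1
  have hg2 : g ≡ 1 [MOD Q2] := by rw [hg]; exact (Nat.chineseRemainder hcop 0 1).2.2
  have hlt : g < Q1 * Q2 := by rw [hg]; exact Nat.chineseRemainder_lt_mul hcop 0 1 h1 h2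
  refine ⟨g, by rw [← hQ]; exact hlt, fun t p hp hpz => ?_⟩
  have hpS : p ∈ S := mem_filter.2 ⟨mem_range.2 (by omega), hp⟩
  have hpQ : p ∣ primorial z := by
    have : p ∣ ∏ q ∈ S, q := dvd_prod_of_mem (fun q => q) hpS
    exact this
  have hpQt : p ∣ primorial z * t := hpQ.mul_right t
  by_cases hpc : p ∣ c + 1
  · have hp2 : p ∣ Q2 := by
      rw [hQ2]
      exact dvd_prod_of_mem (fun q => q) (mem_filter.2 ⟨hpS, by simpa using hpc⟩)
    have hgp : g ≡ 1 [MOD p] := hg2.of_dvd hp2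
    have hne2 : p ≠ 2 := by
      rintro rfl
      rw [Nat.even_iff] at hc
      omega
    have e2 : (1 + g) + primorial z * t ≡ 2 [MOD p] := by
      have h3 : (1 + g) + primorial z * t ≡ (1 + 1) + 0 [MOD p] :=
        (Nat.ModEq.add_left 1 hgp).add ((Nat.modEq_zero_iff_dvd).2 hpQt)
      simpa using h3
    constructor
    · intro hd
      have h3 : (2 : ℕ) ≡ 0 [MOD p] := e2.symm.trans ((Nat.modEq_zero_iff_dvd).2 hd)
      have h4 : p ∣ 2 := (Nat.modEq_zero_iff_dvd).1 h3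
      exact hne2 ((Nat.prime_dvd_prime_iff_eq hp Nat.prime_two).1 h4)
    · intro hd
      have h3 : (1 + g) + primorial z * t + c ≡ 2 + c [MOD p] := e2.add_right c
      have h4 : 2 + c ≡ 0 [MOD p] := h3.symm.trans ((Nat.modEq_zero_iff_dvd).2 hd)
      have h5 : p ∣ 2 + c := (Nat.modEq_zero_iff_dvd).1 h4
      have h6 : p ∣ 1 := by
        have h7 : 2 + c = (c + 1) + 1 := by ring
        rw [h7] at h5
        exact (Nat.dvd_add_right hpc).1 h5
      exact hp.one_lt.ne' (Nat.dvd_one.1 h6)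
  · have hp1 : p ∣ Q1 := by
      rw [hQ1]
      exact dvd_prod_of_mem (fun q => q) (mem_filter.2 ⟨hpS, hpc⟩)
    have hgp : g ≡ 0 [MOD p] := hg1.of_dvd hp1
    have e1 : (1 + g) + primorial z * t ≡ 1 [MOD p] := by
      have h3 : (1 + g) + primorial z * t ≡ (1 + 0) + 0 [MOD p] :=
        (Nat.ModEq.add_left 1 hgp).add ((Nat.modEq_zero_iff_dvd).2 hpQt)
      simpa using h3
    constructor
    · intro hd
      have h3 : (1 : ℕ) ≡ 0 [MOD p] := e1.symm.trans ((Nat.modEq_zero_iff_dvd).2 hd)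
      have h4 : p ∣ 1 := (Nat.modEq_zero_iff_dvd).1 h3
      exact hp.one_lt.ne' (Nat.dvd_one.1 h4)
    · intro hd
      have h3 : (1 + g) + primorial z * t + c ≡ 1 + c [MOD p] := e1.add_right c
      have h4 : 1 + c ≡ 0 [MOD p] := h3.symm.trans ((Nat.modEq_zero_iff_dvd).2 hd)
      have h5 : p ∣ 1 + c := (Nat.modEq_zero_iff_dvd).1 h4
      exact hpc (by rwa [add_comm] at h5)

theorem omega_bound (D z P Y : ℕ) (hz : 2 ^ (1024 * (D + 1)) ≤ z) (hP : 0 < P)
    (hPY : P ≤ Y ^ D) (hY : Y < 2 ^ (8 * z + 8)) :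
    64 * (P.primeFactors.filter (fun p => z < p)).card ≤ z := by
  set S := P.primeFactors.filter (fun p => z < p) with hS
  have h1 : z ^ S.card ≤ P := by
    calc z ^ S.card = ∏ _p ∈ S, z := by rw [prod_const]
      _ ≤ ∏ p ∈ S, p := prod_le_prod' fun p hp => (mem_filter.1 hp).2.le
      _ ≤ ∏ p ∈ P.primeFactors, p := prod_le_prod_of_subset_of_one_le' (filter_subset _ _)
          fun p hp _ => (Nat.prime_of_mem_primeFactors hp).one_le
      _ ≤ P := Nat.le_of_dvd hP (Nat.prod_primeFactors_dvd P)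
  have h2 : 2 ^ (1024 * (D + 1) * S.card) ≤ 2 ^ ((8 * z + 8) * D) := by
    calc 2 ^ (1024 * (D + 1) * S.card) = (2 ^ (1024 * (D + 1))) ^ S.card := by rw [pow_mul]
      _ ≤ z ^ S.card := Nat.pow_le_pow_left hz _
      _ ≤ P := h1
      _ ≤ Y ^ D := hPY
      _ ≤ (2 ^ (8 * z + 8)) ^ D := Nat.pow_le_pow_left hY.le _
      _ = 2 ^ ((8 * z + 8) * D) := by rw [pow_mul]
  have h3 : 1024 * (D + 1) * S.card ≤ (8 * z + 8) * D :=
    (Nat.pow_le_pow_iff_right (by norm_num)).1 h2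
  have hz1 : 1 ≤ z := le_trans Nat.one_le_two_pow hz
  have h4 : (8 * z + 8) * D ≤ 16 * z * (D + 1) := by
    have : 8 * z + 8 ≤ 16 * z := by omega
    calc (8 * z + 8) * D ≤ (16 * z) * D := Nat.mul_le_mul_right _ this
      _ ≤ 16 * z * (D + 1) := Nat.mul_le_mul_left _ (by omega)
  have h5 : (D + 1) * (64 * S.card) ≤ (D + 1) * z := by
    have h6 := h3.trans h4
    have h7 : 16 * ((D + 1) * (64 * S.card)) ≤ 16 * ((D + 1) * z) := by
      calc 16 * ((D + 1) * (64 * S.card)) = 1024 * (D + 1) * S.card := by ring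
        _ ≤ 16 * z * (D + 1) := h6
        _ = 16 * ((D + 1) * z) := by ring
    omega
  exact Nat.le_of_mul_le_mul_left h5 (by omega)

theorem sum_sq (L z W : ℕ) (hz : 0 < z) :
    ((∑ m ∈ (Ioc z W).filter Nat.Prime, (L / m ^ 2 + 2) : ℕ) : ℝ) ≤ L / z + 2 * W := by
  have h1 : ((∑ m ∈ (Ioc z W).filter Nat.Prime, (L / m ^ 2 + 2) : ℕ) : ℝ) ≤
      ∑ m ∈ Ioc z W, ((L : ℝ) * ((m : ℝ) ^ 2)⁻¹ + 2) := by
    push_cast
    refine (sum_le_sum_of_subset_of_nonneg (filter_subset _ _) fun m _ _ => by positivity).trans ?_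
    refine sum_le_sum fun m hm => ?_
    have h2 : ((L / m ^ 2 : ℕ) : ℝ) ≤ (L : ℝ) / ((m ^ 2 : ℕ) : ℝ) := Nat.cast_div_le
    push_cast at h2
    rw [div_eq_mul_inv] at h2
    linarith
  refine h1.trans ?_
  rw [sum_add_distrib, ← mul_sum, sum_const, nsmul_eq_mul, Nat.card_Ioc]
  have hL : (0 : ℝ) ≤ L := Nat.cast_nonneg L
  rcases le_total z W with hzW | hzW
  · have h3 := sum_Ioc_inv_sq_le_sub (α := ℝ) hz.ne' hzW
    have h4 : ((z : ℝ))⁻¹ - ((W : ℝ))⁻¹ ≤ ((z : ℝ))⁻¹ := by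
      have : (0 : ℝ) ≤ ((W : ℝ))⁻¹ := by positivity
      linarith
    have h5 : (L : ℝ) * ∑ i ∈ Ioc z W, ((i : ℝ) ^ 2)⁻¹ ≤ L / z := by
      rw [div_eq_mul_inv]
      exact mul_le_mul_of_nonneg_left (h3.trans h4) hL
    have h6 : ((W - z : ℕ) : ℝ) ≤ W := by
      exact_mod_cast Nat.sub_le W z
    linarith
  · rw [Ioc_eq_empty (by omega), sum_empty]
    have h6 : ((W - z : ℕ) : ℝ) = 0 := by
      have : W - z = 0 := by omega
      rw [this]; simp
    rw [h6]
    have : (0 : ℝ) ≤ L / z := by positivity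
    have : (0 : ℝ) ≤ W := Nat.cast_nonneg W
    linarith

theorem sieve (K D : ℕ) : ∃ Y₀ : ℕ, ∀ Y, Y₀ ≤ Y → ∀ P c : ℕ, 0 < P → P ≤ Y ^ D → c ∣ P →
    Even c → 0 < c → c ≤ K * Y → ∃ A, Y ≤ A ∧ A ≤ 2 * Y ∧ Squarefree A ∧ Squarefree (A + c) ∧
      Nat.Coprime A P ∧ Nat.Coprime (A + c) P ∧ Nat.Coprime A (A + c) := by
  classical
  refine ⟨2 ^ (8 * (2 ^ (1024 * (D + 1)) + K + 20)), fun Y hY P c hP hPY hcP hc hc0 hcK => ?_⟩
  obtain ⟨ℓ, hℓ⟩ : ∃ ℓ, ℓ = Nat.log 2 Y := ⟨_, rfl⟩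
  obtain ⟨z, hz⟩ : ∃ z, z = ℓ / 8 := ⟨_, rfl⟩
  have hY0 : Y ≠ 0 := by
    have : 0 < 2 ^ (8 * (2 ^ (1024 * (D + 1)) + K + 20)) := by positivity
    omega
  have hℓ1 : 8 * (2 ^ (1024 * (D + 1)) + K + 20) ≤ ℓ := by
    rw [hℓ]
    exact (Nat.le_log_iff_pow_le (by norm_num) hY0).2 hY
  have hz1 : 2 ^ (1024 * (D + 1)) + K + 20 ≤ z := by omega
  have hzM : 2 ^ (1024 * (D + 1)) ≤ z := by omega
  have hpow0 : 0 < 2 ^ (1024 * (D + 1)) := by positivity
  have hzK : K + 20 ≤ z := by omega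
  have hY1 : 2 ^ (8 * z) ≤ Y := by
    refine le_trans (Nat.pow_le_pow_right (by norm_num) (by omega : 8 * z ≤ ℓ)) ?_
    rw [hℓ]
    exact Nat.pow_log_le_self 2 hY0
  have hY2 : Y < 2 ^ (8 * z + 8) := by
    have h1 : Y < 2 ^ (ℓ + 1) := by rw [hℓ]; exact Nat.lt_pow_succ_log_self (by norm_num) Y
    exact lt_of_lt_of_le h1 (Nat.pow_le_pow_right (by norm_num) (by omega))
  obtain ⟨Q, hQ⟩ : ∃ Q, Q = primorial z := ⟨_, rfl⟩
  have hQpos : 0 < Q := by rw [hQ]; exact primorial_pos z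
  have hQle : Q ≤ 2 ^ (2 * z) := by
    rw [hQ, pow_mul]
    exact primorial_le_four_pow z
  obtain ⟨T, hT⟩ : ∃ T, T = Y / Q := ⟨_, rfl⟩
  have hT1 : 2 ^ (6 * z) ≤ T := by
    rw [hT, Nat.le_div_iff_mul_le hQpos]
    calc 2 ^ (6 * z) * Q ≤ 2 ^ (6 * z) * 2 ^ (2 * z) := Nat.mul_le_mul_left _ hQle
      _ = 2 ^ (8 * z) := by rw [← pow_add]; congr 1; ring
      _ ≤ Y := hY1
  have hTY : T * Q ≤ Y := by rw [hT]; exact Nat.div_mul_le_self Y Q
  have hTY2 : Y < (T + 1) * Q := by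
    have h1 := Nat.div_add_mod Y Q
    have h2 := Nat.mod_lt Y hQpos
    rw [← hT] at h1
    have h3 : (T + 1) * Q = Q * T + Q := by ring
    omega
  obtain ⟨g, hg, hgood⟩ := crt z c hc
  rw [← hQ] at hg hgood
  obtain ⟨W, hW⟩ : ∃ W, W = Nat.sqrt ((K + 2) * Y) := ⟨_, rfl⟩
  obtain ⟨L, hL⟩ : ∃ L, L = T - 2 := ⟨_, rfl⟩
  have hz20 : 20 ≤ z := by omega
  have hTbig : 2 ^ 120 ≤ T := le_trans (Nat.pow_le_pow_right (by norm_num) (by omega)) hT1
  have hT4 : 4 ≤ T := le_trans (by norm_num) hTbig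
  have hLT : T ≤ 2 * L := by omega
  have h16 : 16 * W ≤ L := by
    have h1 : W * W ≤ (K + 2) * Y := by rw [hW]; exact Nat.sqrt_le _
    have h2 : (16 * W) ^ 2 ≤ L ^ 2 := by
      have hK : 4096 * (K + 2) ≤ 2 ^ (4 * z) := by
        have h3 : K + 2 ≤ 2 ^ (K + 2) := Nat.lt_two_pow_self.le
        calc 4096 * (K + 2) ≤ 2 ^ 12 * 2 ^ (K + 2) := Nat.mul_le_mul (by norm_num) h3
          _ = 2 ^ (12 + (K + 2)) := by rw [← pow_add]
          _ ≤ 2 ^ (4 * z) := Nat.pow_le_pow_right (by norm_num) (by omega)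
      have h4 : (K + 2) * Y ≤ (K + 2) * ((T + 1) * 2 ^ (2 * z)) :=
        Nat.mul_le_mul_left _ (hTY2.le.trans (Nat.mul_le_mul_left _ hQle))
      have h5 : 4 * ((16 * W) ^ 2) ≤ T ^ 2 := by
        calc 4 * ((16 * W) ^ 2) = 1024 * (W * W) := by ring
          _ ≤ 1024 * ((K + 2) * ((T + 1) * 2 ^ (2 * z))) := Nat.mul_le_mul_left _ (h1.trans h4)
          _ ≤ 1024 * ((K + 2) * ((2 * T) * 2 ^ (2 * z))) := by gcongr; omega
          _ ≤ (4096 * (K + 2)) * (T * 2 ^ (2 * z)) := by nlinarith [Nat.zero_le ((K + 2) * (T * 2 ^ (2 * z)))]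
          _ ≤ 2 ^ (4 * z) * (T * 2 ^ (2 * z)) := Nat.mul_le_mul_right _ hK
          _ = T * 2 ^ (6 * z) := by
              have : 6 * z = 4 * z + 2 * z := by ring
              rw [this, pow_add]; ring
          _ ≤ T * T := Nat.mul_le_mul_left _ hT1
          _ = T ^ 2 := by ring
      have h6 : T ^ 2 ≤ 4 * L ^ 2 := by
        calc T ^ 2 ≤ (2 * L) ^ 2 := Nat.pow_le_pow_left hLT 2
          _ = 4 * L ^ 2 := by ring
      omega
    exact (Nat.pow_le_pow_iff_left (by norm_num)).1 h2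
  have hzL : z ≤ L := by
    have h1 : z < 2 ^ z := Nat.lt_two_pow_self
    have h2 : 2 ^ z * 2 ≤ 2 ^ (6 * z) := by
      rw [← pow_succ]
      exact Nat.pow_le_pow_right (by norm_num) (by omega)
    omega
  set S := P.primeFactors.filter (fun p => z < p) with hS
  have hω : 64 * S.card ≤ z := omega_bound D z P Y hzM hP hPY hY2
  set I := Ico (T + 1) (T + 1 + L) with hI
  have hcopQ : ∀ p : ℕ, p.Prime → z < p → Nat.Coprime Q p := by
    intro p hp hzp
    rw [hQ]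
    refine Nat.Coprime.prod_left fun q hq => ?_
    have hq2 := mem_filter.1 hq
    rw [mem_range] at hq2
    refine (Nat.coprime_primes hq2.2 hp).2 ?_
    omega
  -- the bad sets
  set B1 := S.biUnion (fun p => I.filter (fun t => p ∣ (1 + g) + Q * t)) with hB1
  set B2 := S.biUnion (fun p => I.filter (fun t => p ∣ (1 + g + c) + Q * t)) with hB2
  set S' := (Ioc z W).filter Nat.Prime with hS'
  set B3 := S'.biUnion (fun p => I.filter (fun t => p ^ 2 ∣ (1 + g) + Q * t)) with hB3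
  set B4 := S'.biUnion (fun p => I.filter (fun t => p ^ 2 ∣ (1 + g + c) + Q * t)) with hB4
  have hb12 : ∀ a : ℕ, (S.biUnion (fun p => I.filter (fun t => p ∣ a + Q * t))).card ≤
      S.card * (L / z + 2) := by
    intro a
    refine card_biUnion_le.trans ?_
    refine (sum_le_card_nsmul S _ (L / z + 2) fun p hp => ?_).trans (by simp)
    have hp1 := mem_filter.1 hp
    have hpp := Nat.prime_of_mem_primeFactors hp1.1
    refine (card_prog Q a p L (T + 1) hpp.pos (hcopQ p hpp hp1.2)).trans ?_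
    have : L / p ≤ L / z := Nat.div_le_div_left hp1.2.le (by omega)
    omega
  have hb34 : ∀ a : ℕ, ((S'.biUnion (fun p => I.filter (fun t => p ^ 2 ∣ a + Q * t))).card : ℝ) ≤
      L / z + 2 * W := by
    intro a
    refine le_trans ?_ (sum_sq L z W (by omega))
    have h1 : (S'.biUnion (fun p => I.filter (fun t => p ^ 2 ∣ a + Q * t))).card ≤
        ∑ m ∈ S', (L / m ^ 2 + 2) := by
      refine card_biUnion_le.trans (sum_le_sum fun p hp => ?_)
      have hp1 := mem_filter.1 hp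
      have hp2 := mem_Ioc.1 hp1.1
      exact card_prog Q a (p ^ 2) L (T + 1) (pow_pos hp1.2.pos 2)
        ((hcopQ p hp1.2 hp2.1).pow_right 2)
    exact_mod_cast h1
  have hex : ∃ t ∈ I, t ∉ B1 ∪ B2 ∪ (B3 ∪ B4) := by
    by_contra hcon
    push Not at hcon
    have h1 : I ⊆ B1 ∪ B2 ∪ (B3 ∪ B4) := hcon
    have h2 := card_le_card h1
    rw [hI, Nat.card_Ico] at h2
    have h3 : T + 1 + L - (T + 1) = L := by omega
    rw [h3] at h2
    have h4 : (B1 ∪ B2 ∪ (B3 ∪ B4)).card ≤ B1.card + B2.card + (B3.card + B4.card) :=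
      (card_union_le _ _).trans (add_le_add (card_union_le _ _) (card_union_le _ _))
    have h5 : (L : ℝ) ≤ B1.card + B2.card + (B3.card + B4.card) := by
      exact_mod_cast h2.trans h4
    have h6 : (B1.card : ℝ) ≤ S.card * (L / z + 2) := by
      have h7 : (B1.card : ℝ) ≤ ((S.card * (L / z + 2) : ℕ) : ℝ) := by
        exact_mod_cast hb12 (1 + g)
      refine h7.trans ?_
      push_cast
      have h8 : ((L / z : ℕ) : ℝ) ≤ L / z := Nat.cast_div_le
      have h9 : (0 : ℝ) ≤ S.card := Nat.cast_nonneg _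
      exact mul_le_mul_of_nonneg_left (add_le_add_left h8 2) h9
    have h6' : (B2.card : ℝ) ≤ S.card * (L / z + 2) := by
      have h7 : (B2.card : ℝ) ≤ ((S.card * (L / z + 2) : ℕ) : ℝ) := by
        exact_mod_cast hb12 (1 + g + c)
      refine h7.trans ?_
      push_cast
      have h8 : ((L / z : ℕ) : ℝ) ≤ L / z := Nat.cast_div_le
      have h9 : (0 : ℝ) ≤ S.card := Nat.cast_nonneg _
      exact mul_le_mul_of_nonneg_left (add_le_add_left h8 2) h9
    have h10 := hb34 (1 + g)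
    have h11 := hb34 (1 + g + c)
    have hzR : (20 : ℝ) ≤ z := by exact_mod_cast hz20
    have hωR : 64 * (S.card : ℝ) ≤ z := by exact_mod_cast hω
    have hzLR : (z : ℝ) ≤ L := by exact_mod_cast hzL
    have h16R : 16 * (W : ℝ) ≤ L := by exact_mod_cast h16
    have hLpos : (0 : ℝ) < L := by linarith
    have h12 : (S.card : ℝ) * (L / z) ≤ L / 64 := by
      rw [mul_div_assoc', div_le_div_iff₀ (lt_of_lt_of_le (by norm_num) hzR) (by norm_num)]
      calc (S.card : ℝ) * L * 64 = L * (64 * S.card) := by ring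
        _ ≤ L * z := mul_le_mul_of_nonneg_left hωR hLpos.le
    have h13 : (L : ℝ) / z ≤ L / 20 := div_le_div_of_nonneg_left hLpos.le (by norm_num) hzR
    have h14 : (S.card : ℝ) * 2 ≤ L / 32 := by linarith
    have h15 : (S.card : ℝ) * (L / z + 2) ≤ L / 64 + L / 32 := by
      have : (S.card : ℝ) * (L / z + 2) = S.card * (L / z) + S.card * 2 := by ring
      linarith
    linarith
  obtain ⟨t, htI, ht⟩ := hex
  have htI' := mem_Ico.1 htI
  simp only [mem_union, not_or] at ht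
  obtain ⟨⟨hn1, hn2⟩, hn3, hn4⟩ := ht
  obtain ⟨A, hA⟩ : ∃ A, A = (1 + g) + Q * t := ⟨_, rfl⟩
  have hAc : A + c = (1 + g + c) + Q * t := by rw [hA]; ring
  have hAlow : Y ≤ A := by
    have h1 : (T + 1) * Q ≤ Q * t := by
      rw [mul_comm]; exact Nat.mul_le_mul_left _ htI'.1
    omega
  have hAup : A ≤ 2 * Y := by
    have h1 : Q * t ≤ Q * (2 * T - 2) := Nat.mul_le_mul_left _ (by omega)
    have h2 : Q + Q * (2 * T - 2) ≤ Q * (2 * T) := by
      have : Q + Q * (2 * T - 2) = Q * (2 * T - 1) := by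
        have h3 : 2 * T - 1 = (2 * T - 2) + 1 := by omega
        rw [h3]; ring
      rw [this]
      exact Nat.mul_le_mul_left _ (by omega)
    have h3 : Q * (2 * T) = 2 * (T * Q) := by ring
    omega
  have hAW : ∀ p, p ^ 2 ≤ A + c → p ≤ W := by
    intro p hp
    rw [hW, Nat.le_sqrt']
    refine hp.trans ?_
    have : A + c ≤ 2 * Y + K * Y := by omega
    calc A + c ≤ 2 * Y + K * Y := this
      _ = (K + 2) * Y := by ring
  have hAcopP : Nat.Coprime A P := by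
    by_contra hcon
    obtain ⟨p, hp, hpA, hpP⟩ := Nat.Prime.not_coprime_iff_dvd.1 hcon
    have hzp : z < p := by
      by_contra h
      exact (hgood t p hp (by omega)).1 (by rw [hA] at hpA; exact hpA)
    refine hn1 (mem_biUnion.2 ⟨p, mem_filter.2 ⟨?_, hzp⟩, mem_filter.2 ⟨htI, ?_⟩⟩)
    · exact Nat.mem_primeFactors.2 ⟨hp, hpP, hP.ne'⟩
    · rw [hA] at hpA; exact hpA
  have hAccopP : Nat.Coprime (A + c) P := by
    by_contra hcon
    obtain ⟨p, hp, hpA, hpP⟩ := Nat.Prime.not_coprime_iff_dvd.1 hcon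
    have hzp : z < p := by
      by_contra h
      exact (hgood t p hp (by omega)).2 (by rw [hA] at hpA; exact hpA)
    refine hn2 (mem_biUnion.2 ⟨p, mem_filter.2 ⟨?_, hzp⟩, mem_filter.2 ⟨htI, ?_⟩⟩)
    · exact Nat.mem_primeFactors.2 ⟨hp, hpP, hP.ne'⟩
    · rw [hAc] at hpA; exact hpA
  refine ⟨A, hAlow, hAup, ?_, ?_, hAcopP, hAccopP, ?_⟩
  · rw [Nat.squarefree_iff_prime_squarefree]
    intro p hp hpp
    have hzp : z < p := by
      by_contra h
      exact (hgood t p hp (by omega)).1 (by rw [hA] at hpp; exact (dvd_mul_right p p).trans hpp)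
    have hpW : p ≤ W := hAW p (by
      rw [pow_two]
      exact (Nat.le_of_dvd (by omega) hpp).trans (Nat.le_add_right A c))
    refine hn3 (mem_biUnion.2 ⟨p, mem_filter.2 ⟨mem_Ioc.2 ⟨hzp, hpW⟩, hp⟩,
      mem_filter.2 ⟨htI, ?_⟩⟩)
    rw [pow_two, ← hA]; exact hpp
  · rw [Nat.squarefree_iff_prime_squarefree]
    intro p hp hpp
    have hzp : z < p := by
      by_contra h
      exact (hgood t p hp (by omega)).2 (by rw [hA] at hpp; exact (dvd_mul_right p p).trans hpp)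
    have hpW : p ≤ W := hAW p (by
      rw [pow_two]
      exact Nat.le_of_dvd (by omega) hpp)
    refine hn4 (mem_biUnion.2 ⟨p, mem_filter.2 ⟨mem_Ioc.2 ⟨hzp, hpW⟩, hp⟩,
      mem_filter.2 ⟨htI, ?_⟩⟩)
    rw [pow_two, ← hAc]; exact hpp
  · rw [Nat.coprime_self_add_right]
    exact Nat.Coprime.coprime_dvd_right hcP hAcopP

end Pool.Agent.V5helper13.LP
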